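import Pool.Agent.N198.TB.Kill
import Pool.Agent.N198.TP.Small

/-!
Rational classes with few entries of odd degree.
-/

set_option linter.unusedSectionVars false

namespace Pool.Agent.N198.TB

open Finset Pool.Agent.H916R2 Pool.Agent.N992 Pool.Agent.N993 Pool.Agent.H916K Pool.Agent.N997.P
  Pool.Agent.N198.TP

/-- Reduction to the small degree. -/
theorem main_gen (r m : ℕ) (hm : 0 < m)
    (H : ∀ [NeZero (reducedDegree r m)] (s0 : Multiset (ZMod (reducedDegree r m))),
      IsHodge (reducedDegree r m) s0 → s0 ≠ 0 → Multiset.card s0 ≤ 2 * r →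
      (∀ p : ℕ, p.Prime → p ∣ reducedDegree r m → p % 4 = 1 →
        (s0.map (pr p (reducedDegree r m))).sum = 0) →
      ∃ l : ℕ, ∃ _ : NeZero (l * reducedDegree r m),
        Generated (l * reducedDegree r m) (ModularCharacter (l * reducedDegree r m))
          (s0.map (iota l : ZMod (reducedDegree r m) → ZMod (l * reducedDegree r m))))
    (s : Multiset (ZMod m × ℤ)) (hne : s ≠ 0) (heven : Even (Multiset.card s))
    (hcard : Multiset.card s ≤ 2 * r) (h0 : ∀ z ∈ s, z.1 ≠ 0 ∧ z.2 ≠ 0)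
    (hsum : (s.map Prod.fst).sum = 0) (hR : RationalClass m s) :
    ∃ l : ℕ, ∃ _ : NeZero (l * m), Generated (l * m) (ModularCharacter (l * m))
        ((s.map Prod.fst).map (fun a => ((l * a.val : ℕ) : ZMod (l * m)))) := by
  classical
  have hmz : NeZero m := ⟨hm.ne'⟩
  have hm2 : 2 ≤ m := by
    by_contra hlt
    have hm1 : m = 1 := by omega
    subst hm1
    obtain ⟨z, hz⟩ := Multiset.exists_mem_of_ne_zero hne
    exact (h0 z hz).1 (Subsingleton.elim _ _)
  have hH := hodge_of_rational hm2 (fun z hz => (h0 z hz).1) heven hsum (fun z hz => (h0 z hz).2) hR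
  obtain ⟨t, ht⟩ : ∃ t, t = s.map Prod.fst := ⟨_, rfl⟩
  rw [← ht] at hH hsum ⊢
  have htne : t ≠ 0 := fun h => hne (Multiset.map_eq_zero.mp (ht.symm.trans h))
  have hpar : ∀ p : ℕ, p.Prime → p ∣ m → p % 4 = 1 → (t.map (pr p m)).sum = 0 := by
    intro p hp hpm hp4
    rw [ht] at hH ⊢
    exact even_of_rational_class hH hne (fun z hz => (h0 z hz).2) hR hp hpm hp4
  have hr : 0 < r := by
    rcases Nat.eq_zero_or_pos r with rfl | h
    · exfalso
      apply hne
      rw [← Multiset.card_eq_zero]; omega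
    · exact h
  have key := reduce_hodge2 r t hH (by rw [ht, Multiset.card_map]; exact hcard) hr
  have hgm : reducedDegree r m ∣ m := Nat.gcd_dvd_left _ _
  generalize reducedDegree r m = g at key H hgm
  obtain ⟨s0, L, L', hs0, hs0c, hL, hLL, hid⟩ := key
  have hg0 : NeZero g := ⟨fun h => by rw [h] at hgm; exact hm.ne' (Nat.eq_zero_of_zero_dvd hgm)⟩
  have hLm : NeZero (L * m) := ⟨Nat.mul_ne_zero hL.ne' hm.ne'⟩
  have hpar0 : ∀ p : ℕ, p.Prime → p ∣ g → p % 4 = 1 → (s0.map (pr p g)).sum = 0 := by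
    intro p hp hpg hp4
    have hD : OddDist (pr p (L * m)) := pr_odd hp (by omega)
    have h1 := hid (L * m) rfl (ZMod 2) _ hD
    rw [Multiset.map_map, Multiset.map_map] at h1
    have h2 : (s0.map (pr p (L * m) ∘ iota L')) = s0.map (pr p g) :=
      Multiset.map_congr rfl fun b _ => pr_iota hp hLL.symm b
    have h3 : (t.map (pr p (L * m) ∘ iota L)) = t.map (pr p m) :=
      Multiset.map_congr rfl fun b _ => pr_iota hp rfl b
    rw [h2, h3, hpar p hp (hpg.trans hgm) hp4] at h1
    exact h1.symm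
  by_cases hs00 : s0 = 0
  · refine ⟨L, hLm, ?_⟩
    refine gen_of_kill (M := L * m) (g := g) (q' := L')
      (fun s hs => ⟨hs.1.1, hs.1.2.1⟩) (fun s hs => hs.neg) rfl hH htne s0 ?_ ?_
    · intro R _ c hc
      exact hid (L * m) rfl R c hc
    · intro R _ c hc hk
      rw [hs00]; simp
  obtain ⟨l, hl, hgen⟩ := H s0 hs0 hs00 hs0c hpar0
  have hl0 : l ≠ 0 := by rintro rfl; rw [zero_mul] at hl; exact hl.out rfl
  have hM : NeZero (l * L * m) := ⟨Nat.mul_ne_zero (Nat.mul_ne_zero hl0 hL.ne') hm.ne'⟩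
  have e1 : l * (L * m) = l * L * m := by ring
  have e2 : L' * (l * g) = l * L * m := by
    rw [mul_assoc, hLL]; ring
  refine ⟨l * L, hM, ?_⟩
  refine gen_of_kill (M := l * L * m) (g := g) (q' := L' * l)
    (fun s hs => ⟨hs.1.1, hs.1.2.1⟩) (fun s hs => hs.neg) rfl hH htne s0 ?_ ?_
  · intro R _ c hc
    have h1 := hid (L * m) rfl R (fun b => c (iota l b)) (hc.comp_iota e1)
    rw [Multiset.map_map, Multiset.map_map] at h1 ⊢
    have h2 : t.map ((fun b : ZMod (L * m) => c (iota l b)) ∘ iota L) =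
        t.map (c ∘ iota (l * L)) := Multiset.map_congr rfl fun b _ => by
      simp only [Function.comp_apply]
      rw [iota_comp e1]
    have h3 : s0.map ((fun b : ZMod (L * m) => c (iota l b)) ∘ iota L') =
        s0.map (c ∘ iota (L' * l)) := Multiset.map_congr rfl fun b _ => by
      simp only [Function.comp_apply]
      rw [iota_comp e1, mul_comm l L']
    rw [h2, h3] at h1
    exact h1
  · intro R _ c hc hk
    have h1 := kill_generated (hc.comp_iota e2) (base := ModularCharacter (l * g)) (by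
      intro u hu
      have h2 := hk _ (hu.lift e2)
      rw [Multiset.map_map] at h2
      exact h2) hgen
    rw [Multiset.map_map] at h1
    rw [Multiset.map_map, ← h1]
    congr 1
    refine Multiset.map_congr rfl fun b _ => ?_
    simp only [Function.comp_apply]
    rw [iota_comp e2]

/-- Any four different odd prime factors `p ≤ B` of `m` are large with respect to `C`. -/
def FourLarge (C B m : ℕ) : Prop :=
  ∀ T : Finset ℕ, T.card = 4 → (∀ p ∈ T, p.Prime ∧ p ≠ 2 ∧ p ∣ m ∧ p ≤ B) →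
    16 * C < ∏ p ∈ T, (p - 1)

/-- Rational classes with few entries, odd degrees. -/
theorem main_odd (r m : ℕ) (hodd : m % 2 = 1) (hL : FourLarge (2 * r) (4 * r + 1) m)
    (s : Multiset (ZMod m × ℤ)) (hne : s ≠ 0) (heven : Even (Multiset.card s))
    (hcard : Multiset.card s ≤ 2 * r) (h0 : ∀ z ∈ s, z.1 ≠ 0 ∧ z.2 ≠ 0)
    (hsum : (s.map Prod.fst).sum = 0) (hR : RationalClass m s) :
    ∃ l : ℕ, ∃ _ : NeZero (l * m), Generated (l * m) (ModularCharacter (l * m))
        ((s.map Prod.fst).map (fun a => ((l * a.val : ℕ) : ZMod (l * m)))) := by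
  have hm : 0 < m := by omega
  have hgm : reducedDegree r m ∣ m := Nat.gcd_dvd_left _ _
  have hgB : ∀ p, p.Prime → p ∣ reducedDegree r m → p ≤ 4 * r + 1 := by
    intro p hp hpg
    have h1 := prime_le_of_dvd_smallDegree hp (hpg.trans (Nat.gcd_dvd_right _ _))
    unfold primeBound at h1
    rw [if_neg (by omega)] at h1
    exact h1
  have hgodd : reducedDegree r m % 2 = 1 := by
    rcases Nat.mod_two_eq_zero_or_one (reducedDegree r m) with h | h
    · exfalso
      have h2 : 2 ∣ m := (Nat.dvd_of_mod_eq_zero h).trans hgm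
      omega
    · exact h
  refine main_gen r m hm ?_ s hne heven hcard h0 hsum hR
  intro _ s0 hs0 hs00 hs0c hpar
  obtain ⟨l, hl, h⟩ := rational_odd (reducedDegree r m) hgodd
  refine ⟨l, hl, h s0 hs0 hs00 ?_ hpar⟩
  intro T hT hc
  have h1 := hL T hc (fun p hp => by
    have h2 := Nat.mem_primeFactors.mp (hT hp)
    refine ⟨h2.1, ?_, h2.2.1.trans hgm, hgB p h2.1 h2.2.1⟩
    rintro rfl
    have := h2.2.1
    omega)
  refine lt_of_le_of_lt ?_ h1
  exact Nat.mul_le_mul_left _ hs0c

/-- Rational classes with few entries, twice odd degrees. -/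
theorem main_two (r m : ℕ) (h2 : m % 4 = 2) (hL : FourLarge (2 * (2 * r)) (8 * r + 1) m)
    (s : Multiset (ZMod m × ℤ)) (hne : s ≠ 0) (heven : Even (Multiset.card s))
    (hcard : Multiset.card s ≤ 2 * r) (h0 : ∀ z ∈ s, z.1 ≠ 0 ∧ z.2 ≠ 0)
    (hsum : (s.map Prod.fst).sum = 0) (hR : RationalClass m s) :
    ∃ l : ℕ, ∃ _ : NeZero (l * m), Generated (l * m) (ModularCharacter (l * m))
        ((s.map Prod.fst).map (fun a => ((l * a.val : ℕ) : ZMod (l * m)))) := by
  have hm : 0 < m := by omega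
  have hgm : reducedDegree r m ∣ m := Nat.gcd_dvd_left _ _
  have hgB : ∀ p, p.Prime → p ∣ reducedDegree r m → p ≤ 8 * r + 1 := by
    intro p hp hpg
    have h1 := prime_le_of_dvd_smallDegree hp (hpg.trans (Nat.gcd_dvd_right _ _))
    unfold primeBound at h1
    rw [if_pos (by omega)] at h1
    exact h1
  have hL' : ∀ {C : ℕ} (U : Finset ℕ), C ≤ 2 * (2 * r) →
      (∀ p ∈ U, p.Prime ∧ p ≠ 2 ∧ p ∣ reducedDegree r m) → Large C U := by
    intro C U hCr hU T hT hc
    have h1 := hL T hc (fun p hp => by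
      obtain ⟨h2, h22, h3⟩ := hU p (hT hp)
      exact ⟨h2, h22, h3.trans hgm, hgB p h2 h3⟩)
    exact lt_of_le_of_lt (Nat.mul_le_mul_left _ hCr) h1
  refine main_gen r m hm ?_ s hne heven hcard h0 hsum hR
  intro _ s0 hs0 hs00 hs0c hpar
  by_cases hg2 : reducedDegree r m % 2 = 1
  · obtain ⟨l, hl, h⟩ := rational_odd (reducedDegree r m) hg2
    refine ⟨l, hl, h s0 hs0 hs00 (hL' _ (by omega) fun p hp => ?_) hpar⟩
    refine ⟨Nat.prime_of_mem_primeFactors hp, ?_, Nat.dvd_of_mem_primeFactors hp⟩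
    rintro rfl
    have := Nat.dvd_of_mem_primeFactors hp
    omega
  · have hg4 : reducedDegree r m % 4 = 2 := by
      have h4 : ¬ 4 ∣ reducedDegree r m := fun h => by
        have := h.trans hgm
        omega
      omega
    obtain ⟨l, hl, h⟩ := rational_two (reducedDegree r m) hg4
    refine ⟨l, hl, h s0 hs0 hs00 (hL' _ (by omega) fun p hp => ?_) hpar⟩
    exact ⟨Nat.prime_of_mem_primeFactors (mem_of_mem_erase hp), ne_of_mem_erase hp,
      Nat.dvd_of_mem_primeFactors (mem_of_mem_erase hp)⟩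

/-- For less than 30 there is no condition. -/
lemma fourLarge_small {C m : ℕ} (hC : C < 30) (B : ℕ) : FourLarge C B m := by
  intro T hT hp
  have := Pool.Agent.N353.TB.prime_thirty T (fun p hpT => by
    obtain ⟨h1, h2, _⟩ := hp p hpT
    exact ⟨h1, h1.eq_two_or_odd.resolve_left h2⟩) hT
  omega

end Pool.Agent.N198.TB
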