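import Pool.Agent.N198.TB.Join
import Pool.Agent.N756.TB.NORM
import Pool.Agent.N441.TB.COMB

/-!
Blocks and box distributions.
-/

set_option linter.unusedSectionVars false

namespace Pool.Agent.N198.TB

open Finset Pool.Agent.N993

variable {ι : Type} [DecidableEq ι] {D : Dat ι}

/-! ### Simple properties -/

lemma Rl.act {q : ι} {f : D.Pt → ℤ} (hf : Rl q f) (b : D.GG) : Rl q (fun x => f (D.act b x)) := by
  intro x hx
  have h := hf (D.act b x) (Dat.act_apply_none hx)
  rw [Dat.act_act, mul_comm (D.α q) b, ← Dat.act_act] at h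
  rw [← h, ← Equiv.sum_comp (Equiv.mulLeft (b q))
    (fun u => f (Function.update (D.act b x) q (some u)))]
  refine sum_congr rfl fun u _ => ?_
  beta_reduce
  rw [Dat.act_update_some]
  rfl

lemma Rl.sub {q : ι} {f g : D.Pt → ℤ} (hf : Rl q f) (hg : Rl q g) :
    Rl q (fun x => f x - g x) := by
  intro x hx
  rw [sum_sub_distrib, hf x hx, hg x hx]
  ring

lemma sum_act {k : ι} (f : D.Pt → ℤ) (b : D.GG) (x : D.Pt) :
    ∑ u : D.G k, f (D.act b (Function.update x k (some u))) =
      ∑ u : D.G k, f (Function.update (D.act b x) k (some u)) := by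
  rw [← Equiv.sum_comp (Equiv.mulLeft (b k))
    (fun u => f (Function.update (D.act b x) k (some u)))]
  refine sum_congr rfl fun u _ => ?_
  rw [Dat.act_update_some]
  rfl

lemma Z0.sub {k : ι} {f g : D.Pt → ℤ} (hf : Z0 k f) (hg : Z0 k g) :
    Z0 k (fun x => f x - g x) := by
  intro x hx
  rw [sum_sub_distrib, hf x hx, hg x hx, sub_zero]

lemma Sp.act {T Q : Finset ι} {f : D.Pt → ℤ} (hf : Sp T Q f) (b : D.GG) :
    Sp T Q (fun x => f (D.act b x)) := by
  intro x hx
  have h := hf _ hx
  refine ⟨fun i hi => ?_, fun i h1 h2 => ?_⟩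
  · have := h.1 i hi
    rwa [Ne, Dat.act_eq_none] at this
  · exact Dat.act_eq_none.mp (h.2 i h1 h2)

lemma Sp.sub {T Q : Finset ι} {f g : D.Pt → ℤ} (hf : Sp T Q f) (hg : Sp T Q g) :
    Sp T Q (fun x => f x - g x) := by
  intro x hx
  by_cases h : f x = 0
  · exact hg x (fun h' => hx (by beta_reduce; rw [h, h', sub_zero]))
  · exact hf x h

lemma join_smul (T T' Q : Finset ι) (a b : ℤ) (f g : D.Pt → ℤ) (x : D.Pt) :
    join T T' Q (fun y => a * f y) (fun y => b * g y) x = a * b * join T T' Q f g x := by
  by_cases hc : Cd T T' Q x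
  · rw [join_pos hc, join_pos hc, mul_sum]
    refine sum_congr rfl fun J _ => ?_
    ring
  · rw [join_neg hc, join_neg hc, mul_zero]

/-! ### Norms -/

/-- the number of the points with support `R` -/
def wg (D : Dat ι) (R : Finset ι) : ℤ := ∏ i ∈ R, (Fintype.card (D.G i) : ℤ)

lemma wg_pos (R : Finset ι) : 0 < wg D R :=
  prod_pos fun i _ => by exact_mod_cast Fintype.card_pos

lemma wg_union {R R' : Finset ι} (h : Disjoint R R') : wg D (R ∪ R') = wg D R * wg D R' :=
  prod_union h

section norm

variable [Fintype ι]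

lemma S1_nonneg (R : Finset ι) (f : D.Pt → ℤ) : 0 ≤ S1 R f := sum_nonneg fun _ _ => abs_nonneg _

lemma MM_pos (D : Dat ι) : 0 < MM D := by
  unfold MM
  exact_mod_cast Fintype.card_pos

/-- The norm of the joint product. -/
theorem join_bound {T T' Q J : Finset ι} (h1 : Disjoint T Q) (h2 : Disjoint T' Q)
    (h3 : Disjoint T T') (hJ : J ⊆ Q) {f g : D.Pt → ℤ} {C C' : ℕ → ℤ} {w : ℤ} (hw : 0 ≤ w)
    (hC : ∀ i, 0 ≤ C i)
    (hf : ∀ J ⊆ Q, S1 (T ∪ J) f * wg D (T ∪ J) ≤ MM D * C J.card)
    (hg : ∀ J ⊆ Q, S1 (T' ∪ J) g * wg D (T' ∪ J) * w ≤ MM D * C' J.card) :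
    S1 (T ∪ T' ∪ J) (join T T' Q f g) * wg D (T ∪ T' ∪ J) * w ≤
      MM D * ∑ J' ∈ J.powerset, C J'.card * C' (J \ J').card := by
  have hM := MM_pos D
  have key := Pool.Agent.N756.TB.join_norm h1 h2 h3 hJ f g
  refine le_of_mul_le_mul_left ?_ hM
  have hww : 0 ≤ wg D (T ∪ T' ∪ J) * w := mul_nonneg (wg_pos _).le hw
  calc MM D * (S1 (T ∪ T' ∪ J) (join T T' Q f g) * wg D (T ∪ T' ∪ J) * w)
      = (MM D * S1 (T ∪ T' ∪ J) (join T T' Q f g)) * (wg D (T ∪ T' ∪ J) * w) := by ring
    _ ≤ (∑ J' ∈ J.powerset, S1 (T ∪ J') f * S1 (T' ∪ (J \ J')) g) *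
        (wg D (T ∪ T' ∪ J) * w) := mul_le_mul_of_nonneg_right key hww
    _ = ∑ J' ∈ J.powerset, (S1 (T ∪ J') f * wg D (T ∪ J')) *
        (S1 (T' ∪ (J \ J')) g * wg D (T' ∪ (J \ J')) * w) := by
        rw [sum_mul]
        refine sum_congr rfl fun J' hJ' => ?_
        have hJ'J := mem_powerset.mp hJ'
        have hd : Disjoint (T ∪ J') (T' ∪ (J \ J')) := by
          rw [disjoint_union_left, disjoint_union_right, disjoint_union_right]
          refine ⟨⟨h3, ?_⟩, ?_, disjoint_sdiff⟩
          · exact h1.mono_right (sdiff_subset.trans hJ)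
          · exact (h2.mono_right (hJ'J.trans hJ)).symm
        have he : T ∪ T' ∪ J = (T ∪ J') ∪ (T' ∪ (J \ J')) := by
          ext i
          simp only [mem_union, mem_sdiff]
          have := @hJ'J i
          tauto
        rw [he, wg_union hd]
        ring
    _ ≤ ∑ J' ∈ J.powerset, (MM D * C J'.card) * (MM D * C' (J \ J').card) := by
        refine sum_le_sum fun J' hJ' => ?_
        have hJ'J := mem_powerset.mp hJ'
        refine mul_le_mul (hf J' (hJ'J.trans hJ)) (hg (J \ J') (sdiff_subset.trans hJ)) ?_ ?_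
        · exact mul_nonneg (mul_nonneg (S1_nonneg _ _) (wg_pos _).le) hw
        · exact mul_nonneg hM.le (hC _)
    _ = MM D * (MM D * ∑ J' ∈ J.powerset, C J'.card * C' (J \ J').card) := by
        rw [mul_sum, mul_sum]
        refine sum_congr rfl fun J' _ => ?_
        ring

lemma S1_act (R : Finset ι) (f : D.Pt → ℤ) (a : D.GG) :
    S1 R (fun x => f (D.act a x)) = S1 R f := by
  unfold S1
  rw [← Equiv.sum_comp (Equiv.mulLeft a) (fun b => |f (D.act b (one R))|)]
  refine sum_congr rfl fun b _ => ?_
  beta_reduce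
  rw [Dat.act_act]
  rfl

lemma S1_sub (R : Finset ι) (f g : D.Pt → ℤ) :
    S1 R (fun x => f x - g x) ≤ S1 R f + S1 R g := by
  unfold S1
  rw [← sum_add_distrib]
  exact sum_le_sum fun b _ => abs_sub _ _

lemma S1_congr {R : Finset ι} {f g : D.Pt → ℤ} (h : ∀ b, f (D.act b (one R)) = g (D.act b (one R))) :
    S1 R f = S1 R g := sum_congr rfl fun b _ => by rw [h b]

/-- half of the orbit of a point of one index -/
lemma sum_single (k : ι) : (∑ b : D.GG, if b k = 1 then (1 : ℤ) else 0) *
    (Fintype.card (D.G k) : ℤ) = MM D := by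
  have h1 : ∀ v : D.G k, (∑ b : D.GG, if b k = v then (1 : ℤ) else 0) =
      ∑ b : D.GG, if b k = 1 then (1 : ℤ) else 0 := by
    intro v
    rw [← Equiv.sum_comp (Equiv.mulLeft (Pi.mulSingle k v : D.GG))
      (fun b : D.GG => if b k = v then (1 : ℤ) else 0)]
    refine sum_congr rfl fun b _ => ?_
    change (if (Pi.mulSingle k v * b : D.GG) k = v then (1 : ℤ) else 0) = _
    rw [Pi.mul_apply, Pi.mulSingle_eq_same]
    by_cases h : b k = 1
    · rw [if_pos h, if_pos (by rw [h, mul_one])]
    · rw [if_neg h, if_neg (fun h' => h (mul_eq_left.mp h'))]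
  have h2 : ∑ v : D.G k, (∑ b : D.GG, if b k = v then (1 : ℤ) else 0) = MM D := by
    rw [sum_comm]
    simp [MM]
  rw [← h2]
  simp only [h1]
  rw [sum_const, card_univ, nsmul_eq_mul, mul_comm]

end norm

/-! ### Blocks -/

/-- Blocks. -/
structure Blk [Fintype ι] (k : ι) (Q : Finset ι) (B : D.Pt → ℤ) : Prop where
  sp : Sp {k} Q B
  rel : ∀ q ∈ Q, Rl q B
  nz : ∀ x : D.Pt, x k = none → (∃ i, x i ≠ none) →
    ∑ u : D.G k, B (Function.update x k (some u)) = 0
  val : ∀ x : D.Pt, D.Supp {k} x → B x = if x k = some 1 then 1 else 0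
  norm : ∀ J ⊆ Q, S1 ({k} ∪ J) B * wg D ({k} ∪ J) ≤ MM D * (2 ^ J.card * J.card.factorial)

variable [Fintype ι]

lemma Blk.at_O {k : ι} {Q : Finset ι} {B : D.Pt → ℤ} (h : Blk k Q B) {x : D.Pt}
    (hx : ∀ i, x i = none) : ∑ u : D.G k, B (Function.update x k (some u)) = 1 := by
  have h1 : ∀ u : D.G k, B (Function.update x k (some u)) = if u = 1 then 1 else 0 := by
    intro u
    rw [h.val _ (fun i hi => by
      rw [Function.update_of_ne (by simpa using hi)]; exact hx i), Function.update_self]
    simp
  simp only [h1]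
  simp

/-- the norm of a block does not depend on a unit -/
lemma Blk.Z0_sub {k : ι} {Q : Finset ι} {B : D.Pt → ℤ} (h : Blk k Q B) (b : D.GG) :
    Z0 k (fun x => B (D.act b x) - B x) := by
  intro x hx
  rw [sum_sub_distrib, sum_act]
  by_cases h0 : ∀ i, x i = none
  · rw [h.at_O h0, h.at_O (fun i => Dat.act_apply_none (h0 i)), sub_self]
  · rw [not_forall] at h0
    rw [h.nz x hx h0, h.nz _ (Dat.act_apply_none hx) (by
      obtain ⟨i, hi⟩ := h0
      exact ⟨i, fun h' => hi (Dat.act_eq_none.mp h')⟩), sub_self]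

lemma blk_empty (k : ι) : ∃ B : D.Pt → ℤ, Blk k ∅ B := by
  classical
  refine ⟨fun x => if D.Supp {k} x ∧ x k = some 1 then 1 else 0, ?_, ?_, ?_, ?_, ?_⟩
  · intro x hx
    have h : D.Supp {k} x ∧ x k = some 1 := by
      by_contra h
      exact hx (if_neg h)
    refine ⟨fun i hi => ?_, fun i hi _ => h.1 i hi⟩
    rw [mem_singleton] at hi
    subst hi
    rw [h.2]; simp
  · intro q hq; exact absurd hq (notMem_empty _)
  · intro x hx ⟨i, hi⟩
    refine sum_eq_zero fun u _ => ?_
    refine if_neg fun h => hi ?_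
    have hik : i ≠ k := by rintro rfl; exact hi hx
    have := h.1 i (by simpa using hik)
    rwa [Function.update_of_ne hik] at this
  · intro x hx
    by_cases h : x k = some 1
    · rw [if_pos h, if_pos ⟨hx, h⟩]
    · rw [if_neg h, if_neg (fun h' => h h'.2)]
  · intro J hJ
    rw [subset_empty] at hJ
    subst hJ
    rw [union_empty, card_empty, pow_zero, Nat.factorial_zero]
    push_cast
    simp only [mul_one]
    have h1 : S1 {k} (fun x : D.Pt => if D.Supp {k} x ∧ x k = some 1 then (1 : ℤ) else 0) =
        ∑ b : D.GG, if b k = 1 then (1 : ℤ) else 0 := by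
      unfold S1
      refine sum_congr rfl fun b _ => ?_
      have h2 : D.Supp {k} (D.act b (one {k})) := by
        apply Dat.Supp.act
        intro i hi
        exact if_neg hi
      have h3 : D.act b (one {k}) k = some (b k * 1) :=
        Dat.act_apply_some (if_pos (mem_singleton_self k))
      rw [mul_one] at h3
      beta_reduce
      by_cases h : b k = 1
      · rw [if_pos h, if_pos ⟨h2, by rw [h3, h]⟩, abs_one]
      · rw [if_neg h, if_neg (fun h' => h (by
          have := h'.2
          rw [h3] at this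
          exact Option.some_injective _ this)), abs_zero]
    have h2 : wg D {k} = (Fintype.card (D.G k) : ℤ) := prod_singleton _ _
    rw [h1, h2, sum_single]

lemma one_apply_mem {R : Finset ι} {i : ι} (h : i ∈ R) (b : D.GG) :
    D.act b (one R) i = some (b i * 1) := Dat.act_apply_some (if_pos h)

lemma one_apply_not {R : Finset ι} {i : ι} (h : i ∉ R) (b : D.GG) :
    D.act b (one R) i = none := Dat.act_apply_none (if_neg h)

lemma blk_insert {k q : ι} {Q : Finset ι} (hq : q ∉ Q) (hk : k ∉ insert q Q) {B V : D.Pt → ℤ}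
    (hB : Blk k Q B) (hV : Blk q Q V) : ∃ B' : D.Pt → ℤ, Blk k (insert q Q) B' := by
  classical
  rw [mem_insert, not_or] at hk
  obtain ⟨hkq, hkQ⟩ := hk
  have d1 : Disjoint ({q} : Finset ι) Q := disjoint_singleton_left.mpr hq
  have d2 : Disjoint ({k} : Finset ι) Q := disjoint_singleton_left.mpr hkQ
  have d3 : Disjoint ({q} : Finset ι) {k} := disjoint_singleton.mpr (Ne.symm hkq)
  set Y : D.Pt → ℤ := fun x => B (D.act (D.α q) x) - B x with hY
  have hYsp : Sp {k} Q Y := (hB.sp.act _).sub hB.sp
  have hYZ : Z0 k Y := hB.Z0_sub _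
  have hYr : ∀ q' ∈ Q, Rl q' Y := fun q' hq' => ((hB.rel q' hq').act _).sub (hB.rel q' hq')
  set W := join {q} {k} Q V Y with hW
  have hWsp : Sp ({q} ∪ {k}) Q W := join_sp hV.sp hYsp
  set B' : D.Pt → ℤ := fun x => if x q = none then B x else W x with hB'
  have e0 : ∀ x : D.Pt, x q = none → B' x = B x := fun x hx => if_pos hx
  have e1 : ∀ x : D.Pt, x q ≠ none → B' x = W x := fun x hx => if_neg hx
  refine ⟨B', ?_, ?_, ?_, ?_, ?_⟩
  · intro x hx
    by_cases h : x q = none
    · rw [e0 x h] at hx
      have h1 := hB.sp x hx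
      refine ⟨h1.1, fun i h2 h3 => h1.2 i h2 fun h4 => h3 (mem_insert_of_mem h4)⟩
    · rw [e1 x h] at hx
      have h1 := hWsp x hx
      refine ⟨fun i hi => h1.1 i (mem_union_right _ hi), fun i h2 h3 => ?_⟩
      rw [mem_insert, not_or] at h3
      refine h1.2 i ?_ h3.2
      rw [mem_union, not_or, mem_singleton]
      exact ⟨h3.1, h2⟩
  · intro q' hq' x hx
    rcases mem_insert.mp hq' with rfl | hq'Q
    · rw [e0 x hx, e0 _ (Dat.act_apply_none hx)]
      have hu : ∀ u, B' (Function.update x q' (some u)) = W (Function.update x q' (some u)) :=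
        fun u => e1 _ (by rw [Function.update_self]; simp)
      simp only [hu]
      change _ = Y x
      by_cases hc : Cd {q'} {k} Q x
      · have hcu : ∀ u, Cd {q'} {k} Q (Function.update x q' (some u)) := fun u =>
          (cd_update (Or.inl (mem_singleton_self _)) _).mpr hc
        simp only [hW, join_pos (hcu _), sq_update_not hq]
        rw [sum_comm, sum_eq_single ∅]
        · simp only [prod_empty, Dat.act_one, sdiff_empty, union_empty]
          have h2 : q' ∉ ({k} : Finset ι) ∪ Q := by
            rw [mem_union, not_or, mem_singleton]; exact ⟨Ne.symm hkq, hq⟩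
          simp only [rs_update_mem (mem_singleton_self q'), rs_update_not h2]
          rw [← sum_mul, hV.at_O, one_mul]
          · congr 1
            funext i
            by_cases hi : i ∈ ({k} : Finset ι) ∪ Q
            · rw [rs_mem hi]
            · rw [rs_not hi]
              rw [mem_union, not_or] at hi
              by_cases hiq : i = q'
              · subst hiq; exact hx.symm
              · exact (hc i (by simpa using hiq) hi.1 hi.2).symm
          · intro i
            by_cases hi : i ∈ ({q'} : Finset ι)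
            · rw [rs_mem hi]
              rw [mem_singleton] at hi
              subst hi; exact hx
            · exact rs_not hi
        · intro J hJ hJ0
          have hJs := mem_powerset.mp hJ
          have hJQ : J ⊆ Q := hJs.trans (filter_subset _ _)
          have h1 : q' ∈ ({q'} : Finset ι) ∪ J := mem_union_left _ (mem_singleton_self _)
          have h2 : q' ∉ ({k} : Finset ι) ∪ (Q \ J) := by
            rw [mem_union, not_or, mem_singleton, mem_sdiff]
            exact ⟨Ne.symm hkq, fun h => hq h.1⟩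
          simp only [rs_update_mem h1, rs_update_not h2]
          rw [← sum_mul, hV.nz, zero_mul]
          · exact rs_none hx
          · obtain ⟨j, hj⟩ := nonempty_iff_ne_empty.mpr hJ0
            refine ⟨j, ?_⟩
            rw [rs_mem (mem_union_right _ hj)]
            exact (mem_filter.mp (hJs hj)).2
        · intro h; exact absurd (empty_mem_powerset _) h
      · rw [sum_eq_zero]
        · symm
          by_contra h
          have h3 := hYsp x h
          apply hc
          intro i _ h5 h6
          exact h3.2 i h5 h6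
        · intro u _
          exact join_neg (fun h => hc ((cd_update (Or.inl (mem_singleton_self _)) _).mp h))
    · have hne : q' ≠ q := by rintro rfl; exact hq hq'Q
      by_cases h : x q = none
      · rw [e0 x h, e0 _ (Dat.act_apply_none h), ← hB.rel q' hq'Q x hx]
        refine sum_congr rfl fun u _ => e0 _ ?_
        rw [Function.update_of_ne hne.symm]; exact h
      · rw [e1 x h, e1 _ (fun h' => h (Dat.act_eq_none.mp h')),
          ← join_rel d1 d2 hq'Q (hV.rel q' hq'Q) (hYr q' hq'Q) x hx]
        refine sum_congr rfl fun u _ => e1 _ ?_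
        rw [Function.update_of_ne hne.symm]; exact h
  · intro x hx hne
    by_cases h : x q = none
    · rw [← hB.nz x hx hne]
      refine sum_congr rfl fun u _ => e0 _ ?_
      rw [Function.update_of_ne (Ne.symm hkq)]; exact h
    · rw [← join_Z0' d2 d3 (mem_singleton_self k) hYZ (f := V) x hx]
      refine sum_congr rfl fun u _ => e1 _ ?_
      rw [Function.update_of_ne (Ne.symm hkq)]; exact h
  · intro x hx
    rw [e0 x (hx q (by simpa using Ne.symm hkq))]
    exact hB.val x hx
  · intro J hJ
    by_cases hqJ : q ∈ J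
    · set J0 := J.erase q with hJ0
      have hJ0Q : J0 ⊆ Q := by
        intro i hi
        rw [hJ0, mem_erase] at hi
        exact (mem_insert.mp (hJ hi.2)).resolve_left hi.1
      have hJi : J = insert q J0 := (insert_erase hqJ).symm
      have hcard : J.card = J0.card + 1 := by
        rw [hJi, card_insert_of_notMem (notMem_erase _ _)]
      have hR : ({k} : Finset ι) ∪ J = {q} ∪ {k} ∪ J0 := by
        rw [hJi]
        ext i
        simp only [mem_union, mem_singleton, mem_insert]
        tauto
      have e2 : S1 ({k} ∪ J) B' = S1 ({k} ∪ J) W := by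
        apply S1_congr
        intro b
        apply e1
        rw [one_apply_mem (mem_union_right _ hqJ)]
        simp
      have hY1 : ∀ J ⊆ Q, S1 ({k} ∪ J) Y * wg D ({k} ∪ J) * 1 ≤
          MM D * (2 * (2 ^ J.card * J.card.factorial)) := by
        intro J hJ
        have h1 : S1 ({k} ∪ J) Y ≤ 2 * S1 ({k} ∪ J) B := by
          have := S1_sub ({k} ∪ J) (fun x => B (D.act (D.α q) x)) B
          rw [S1_act] at this
          linarith
        have h2 := mul_le_mul_of_nonneg_right h1 (wg_pos (D := D) ({k} ∪ J)).le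
        have h3 := hB.norm J hJ
        calc _ = S1 ({k} ∪ J) Y * wg D ({k} ∪ J) := by ring
          _ ≤ 2 * S1 ({k} ∪ J) B * wg D ({k} ∪ J) := h2
          _ = 2 * (S1 ({k} ∪ J) B * wg D ({k} ∪ J)) := by ring
          _ ≤ 2 * (MM D * (2 ^ J.card * J.card.factorial)) := by linarith
          _ = _ := by ring
      have key := join_bound d1 d2 d3 hJ0Q (w := 1) zero_le_one
        (C := fun i => 2 ^ i * (i.factorial : ℤ)) (C' := fun i => 2 * (2 ^ i * (i.factorial : ℤ)))
        (fun i => by positivity) hV.norm hY1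
      rw [e2, hR, hcard]
      have hsum : ∑ J' ∈ J0.powerset, (2 : ℤ) ^ J'.card * (J'.card.factorial : ℤ) *
          (2 * (2 ^ (J0 \ J').card * ((J0 \ J').card.factorial : ℤ))) =
          2 ^ (J0.card + 1) * ((J0.card + 1).factorial : ℤ) := by
        have hc := Pool.Agent.N441.TB.comb J0 1 le_rfl
        rw [one_mul] at hc
        have hc' : ((∑ J' ∈ J0.powerset, (J'.card).factorial * (1 + (J0 \ J').card - 1).factorial :
          ℕ) : ℤ) = (((1 + J0.card).factorial : ℕ) : ℤ) := by rw [hc]
        rw [add_comm J0.card 1, ← hc']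
        push_cast
        rw [mul_sum]
        refine sum_congr rfl fun J' hJ' => ?_
        have h1 : J'.card + (J0 \ J').card = J0.card := by
          rw [add_comm]; exact card_sdiff_add_card_eq_card (mem_powerset.mp hJ')
        rw [Nat.add_sub_cancel_left, ← h1]
        ring
      beta_reduce at key
      rw [hsum, mul_one] at key
      exact key
    · have hJQ : J ⊆ Q := fun i hi => (mem_insert.mp (hJ hi)).resolve_left
        (by rintro rfl; exact hqJ hi)
      have e2 : S1 ({k} ∪ J) B' = S1 ({k} ∪ J) B := by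
        apply S1_congr
        intro b
        apply e0
        apply one_apply_not
        rw [mem_union, not_or, mem_singleton]
        exact ⟨Ne.symm hkq, hqJ⟩
      rw [e2]
      exact hB.norm J hJQ

theorem exists_block (Q : Finset ι) : ∀ k, k ∉ Q → ∃ B : D.Pt → ℤ, Blk k Q B := by
  induction Q using Finset.induction_on with
  | empty => intro k _; exact blk_empty k
  | insert q Q hq ih =>
    intro k hk
    obtain ⟨B, hB⟩ := ih k (fun h => hk (mem_insert_of_mem h))
    obtain ⟨V, hV⟩ := ih q hq
    exact blk_insert hq hk hB hV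

end Pool.Agent.N198.TB
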