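import Pool.Agent.N993.Det

/-!
The box distributions: definitions.
-/

set_option linter.unusedSectionVars false

namespace Pool.Agent.N198.TB

open Finset Pool.Agent.N993

variable {ι : Type} [DecidableEq ι] {D : Dat ι}

/-- the restriction of a point to a set of indices -/
def rs (R : Finset ι) (x : D.Pt) : D.Pt := fun i => if i ∈ R then x i else none

/-- the distribution relation with index `q` (first multiplier `α q`, second multiplier `1`) -/
def Rl (q : ι) (f : D.Pt → ℤ) : Prop :=
  ∀ x : D.Pt, x q = none →
    ∑ u : D.G q, f (Function.update x q (some u)) = f (D.act (D.α q) x) - f x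

/-- the norm with index `k` vanishes -/
def Z0 (k : ι) (f : D.Pt → ℤ) : Prop :=
  ∀ x : D.Pt, x k = none → ∑ u : D.G k, f (Function.update x k (some u)) = 0

/-- the supports of the points where `f` does not vanish contain `T` and are contained in
`T ∪ Q` -/
def Sp (T Q : Finset ι) (f : D.Pt → ℤ) : Prop :=
  ∀ x : D.Pt, f x ≠ 0 → (∀ i ∈ T, x i ≠ none) ∧ ∀ i, i ∉ T → i ∉ Q → x i = none

/-- the part of the support in `Q` -/
def sq (Q : Finset ι) (x : D.Pt) : Finset ι := Q.filter (fun i => x i ≠ none)

open Classical in
/-- the joint product of a `T`-system and a `T'`-system over `Q` -/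
noncomputable def join (T T' Q : Finset ι) (f g : D.Pt → ℤ) : D.Pt → ℤ := fun x =>
  if ∀ i, i ∉ T → i ∉ T' → i ∉ Q → x i = none then
    ∑ J ∈ (sq Q x).powerset, f (rs (T ∪ J) x) *
      g (D.act (∏ i ∈ J, D.α i) (rs (T' ∪ (Q \ J)) x))
  else 0

/-- the point with the unit one at the indices in `R` -/
def one (R : Finset ι) : D.Pt := fun i => if i ∈ R then some 1 else none

/-- the sum of the absolute values over the orbit of the point `one R` -/
def S1 [Fintype ι] (R : Finset ι) (f : D.Pt → ℤ) : ℤ := ∑ b : D.GG, |f (D.act b (one R))|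

/-- the number of the points with support `R` -/
def wt (R : Finset ι) : ℤ := ∏ i ∈ R, (Fintype.card (D.G i) : ℤ)

/-- the order of the group -/
def MM [Fintype ι] (D : Dat ι) : ℤ := (Fintype.card D.GG : ℤ)

/-- the function `e 1 - e c` of one index -/
def bx (i : ι) (o : Option (D.G i)) : ℤ :=
  (if o = some 1 then 1 else 0) - (if o = some (D.c i) then 1 else 0)

/-- the box -/
def box (T : Finset ι) (x : D.Pt) : ℤ := ∏ i ∈ T, bx i (x i)

end Pool.Agent.N198.TB
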