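import Pool.Agent.N198.TB.Def

/-!
The joint product of systems.
-/

set_option linter.unusedSectionVars false

namespace Pool.Agent.N198.TB

open Finset Pool.Agent.N993

variable {ι : Type} [DecidableEq ι] {D : Dat ι}

/-! ### Restrictions -/

lemma rs_mem {R : Finset ι} {x : D.Pt} {i : ι} (h : i ∈ R) : rs R x i = x i := if_pos h

lemma rs_not {R : Finset ι} {x : D.Pt} {i : ι} (h : i ∉ R) : rs R x i = none := if_neg h

lemma rs_act (R : Finset ι) (b : D.GG) (x : D.Pt) : rs R (D.act b x) = D.act b (rs R x) := by
  funext i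
  by_cases h : i ∈ R
  · rw [rs_mem h]
    cases hx : x i with
    | none => rw [Dat.act_apply_none hx, Dat.act_apply_none (by rw [rs_mem h, hx])]
    | some u => rw [Dat.act_apply_some hx, Dat.act_apply_some (by rw [rs_mem h, hx])]
  · rw [rs_not h, Dat.act_apply_none (rs_not h)]

lemma rs_update_mem {R : Finset ι} {x : D.Pt} {i : ι} (h : i ∈ R) (v : Option (D.G i)) :
    rs R (Function.update x i v) = Function.update (rs R x) i v := by
  funext j
  by_cases hj : j = i
  · subst hj
    rw [rs_mem h, Function.update_self, Function.update_self]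
  · rw [Function.update_of_ne hj]
    unfold rs
    rw [Function.update_of_ne hj]

lemma rs_update_not {R : Finset ι} {x : D.Pt} {i : ι} (h : i ∉ R) (v : Option (D.G i)) :
    rs R (Function.update x i v) = rs R x := by
  funext j
  by_cases hj : j = i
  · subst hj
    rw [rs_not h, rs_not h]
  · unfold rs
    rw [Function.update_of_ne hj]

lemma rs_none {R : Finset ι} {x : D.Pt} {i : ι} (h : x i = none) : rs R x i = none := by
  unfold rs
  split_ifs
  · exact h
  · rfl

lemma sq_act (Q : Finset ι) (b : D.GG) (x : D.Pt) : sq Q (D.act b x) = sq Q x := by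
  unfold sq
  refine filter_congr fun i _ => ?_
  rw [not_iff_not]
  exact Dat.act_eq_none

lemma sq_update_not {Q : Finset ι} {x : D.Pt} {i : ι} (h : i ∉ Q) (v : Option (D.G i)) :
    sq Q (Function.update x i v) = sq Q x := by
  unfold sq
  refine filter_congr fun j hj => ?_
  rw [Function.update_of_ne (by rintro rfl; exact h hj)]

lemma sq_update_some {Q : Finset ι} {x : D.Pt} {i : ι} (h : i ∈ Q) (hx : x i = none)
    (u : D.G i) : sq Q (Function.update x i (some u)) = insert i (sq Q x) := by
  ext j
  unfold sq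
  rw [mem_filter, mem_insert, mem_filter]
  by_cases hj : j = i
  · subst hj
    rw [Function.update_self]
    simp [h]
  · rw [Function.update_of_ne hj]
    simp [hj]

lemma notMem_sq {Q : Finset ι} {x : D.Pt} {i : ι} (hx : x i = none) : i ∉ sq Q x := by
  unfold sq
  rw [mem_filter]
  rintro ⟨_, h⟩
  exact h hx

/-- the condition in the definition of the joint product -/
def Cd (T T' Q : Finset ι) (x : D.Pt) : Prop := ∀ i, i ∉ T → i ∉ T' → i ∉ Q → x i = none

lemma join_pos {T T' Q : Finset ι} {f g : D.Pt → ℤ} {x : D.Pt} (h : Cd T T' Q x) :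
    join T T' Q f g x = ∑ J ∈ (sq Q x).powerset, f (rs (T ∪ J) x) *
      g (D.act (∏ i ∈ J, D.α i) (rs (T' ∪ (Q \ J)) x)) := by
  unfold join
  exact if_pos h

lemma join_neg {T T' Q : Finset ι} {f g : D.Pt → ℤ} {x : D.Pt} (h : ¬ Cd T T' Q x) :
    join T T' Q f g x = 0 := by
  unfold join
  exact if_neg h

lemma cd_act {T T' Q : Finset ι} (b : D.GG) (x : D.Pt) : Cd T T' Q (D.act b x) ↔ Cd T T' Q x := by
  unfold Cd
  exact forall_congr' fun i => by rw [Dat.act_eq_none]

lemma cd_update {T T' Q : Finset ι} {x : D.Pt} {i : ι} (h : i ∈ T ∨ i ∈ T' ∨ i ∈ Q)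
    (v : Option (D.G i)) : Cd T T' Q (Function.update x i v) ↔ Cd T T' Q x := by
  unfold Cd
  refine forall_congr' fun j => ?_
  by_cases hj : j = i
  · subst hj
    constructor
    · intro _ h1 h2 h3
      rcases h with h | h | h
      · exact absurd h h1
      · exact absurd h h2
      · exact absurd h h3
    · intro _ h1 h2 h3
      rcases h with h | h | h
      · exact absurd h h1
      · exact absurd h h2
      · exact absurd h h3
  · rw [Function.update_of_ne hj]

/-- The distribution relation for the joint product. -/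
theorem join_rel {T T' Q : Finset ι} (h1 : Disjoint T Q) (h2 : Disjoint T' Q) {f g : D.Pt → ℤ}
    {q : ι} (hq : q ∈ Q) (hf : Rl q f) (hg : Rl q g) : Rl q (join T T' Q f g) := by
  intro x hx
  have hqT : q ∉ T := fun h => Finset.disjoint_left.mp h1 h hq
  have hqT' : q ∉ T' := fun h => Finset.disjoint_left.mp h2 h hq
  by_cases hc : Cd T T' Q x
  · have hcu : ∀ u, Cd T T' Q (Function.update x q (some u)) := fun u =>
      (cd_update (Or.inr (Or.inr hq)) _).mpr hc
    rw [join_pos ((cd_act _ _).mpr hc), join_pos hc, sq_act]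
    have hqs : q ∉ sq Q x := notMem_sq hx
    simp only [join_pos (hcu _), sq_update_some hq hx]
    simp only [sum_powerset_insert hqs]
    rw [sum_add_distrib, sum_comm, sum_comm (s := univ), ← sum_add_distrib, ← sum_sub_distrib]
    refine sum_congr rfl fun J hJ => ?_
    have hJs := mem_powerset.mp hJ
    have hqJ : q ∉ J := fun h => hqs (hJs h)
    have hqTJ : q ∉ T ∪ J := by
      rw [mem_union, not_or]; exact ⟨hqT, hqJ⟩
    have hqQJ : q ∈ T' ∪ (Q \ J) := mem_union_right _ (mem_sdiff.mpr ⟨hq, hqJ⟩)
    have hqTI : q ∈ T ∪ insert q J := mem_union_right _ (mem_insert_self _ _)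
    have hqQI : q ∉ T' ∪ (Q \ insert q J) := by
      rw [mem_union, not_or, mem_sdiff]
      exact ⟨hqT', fun h => h.2 (mem_insert_self _ _)⟩
    set a : D.GG := ∏ i ∈ J, D.α i with ha
    set y : D.Pt := rs (T ∪ J) x with hy
    set z : D.Pt := D.act a (rs (T' ∪ (Q \ J)) x) with hz
    have hyq : y q = none := rs_not hqTJ
    have hzq : z q = none := Dat.act_apply_none (rs_none hx)
    -- the first sum
    have e1 : ∑ u : D.G q, f (rs (T ∪ J) (Function.update x q (some u))) *
        g (D.act a (rs (T' ∪ (Q \ J)) (Function.update x q (some u)))) =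
        f y * (g (D.act (D.α q) z) - g z) := by
      rw [← hg z hzq, mul_sum]
      rw [← Equiv.sum_comp (Equiv.mulLeft (a q)) (fun u => f y * g (Function.update z q (some u)))]
      refine sum_congr rfl fun u _ => ?_
      rw [rs_update_not hqTJ, rs_update_mem hqQJ, Dat.act_update_some]
      rfl
    -- the second sum
    have e2 : ∑ u : D.G q, f (rs (T ∪ insert q J) (Function.update x q (some u))) *
        g (D.act (∏ i ∈ insert q J, D.α i) (rs (T' ∪ (Q \ insert q J))
          (Function.update x q (some u)))) =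
        (f (D.act (D.α q) y) - f y) * g (D.act (D.α q) z) := by
      rw [← hf y hyq, sum_mul]
      refine sum_congr rfl fun u _ => ?_
      have e3 : rs (T ∪ insert q J) x = y := by
        funext i
        by_cases hi : i = q
        · subst hi; rw [rs_none hx, hyq]
        · rw [hy]
          unfold rs
          simp only [mem_union, mem_insert, hi, false_or]
      have e4 : rs (T' ∪ (Q \ insert q J)) x = rs (T' ∪ (Q \ J)) x := by
        funext i
        by_cases hi : i = q
        · subst hi; rw [rs_none hx, rs_none hx]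
        · unfold rs
          simp only [mem_union, mem_sdiff, mem_insert, hi, false_or]
      rw [rs_update_mem hqTI, e3, rs_update_not hqQI, e4, prod_insert hqJ, ← Dat.act_act]
    rw [e1, e2]
    have e5 : rs (T ∪ J) (D.act (D.α q) x) = D.act (D.α q) y := rs_act _ _ _
    have e6 : D.act a (rs (T' ∪ (Q \ J)) (D.act (D.α q) x)) = D.act (D.α q) z := by
      rw [rs_act, Dat.act_act, hz, Dat.act_act, mul_comm]
    rw [e5, e6]
    ring
  · rw [join_neg hc, join_neg (fun h => hc ((cd_act _ _).mp h)), sub_zero]
    refine sum_eq_zero fun u _ => ?_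
    exact join_neg (fun h => hc ((cd_update (Or.inr (Or.inr hq)) _).mp h))

/-- The norm with an index of the first factor. -/
theorem join_Z0 {T T' Q : Finset ι} (h1 : Disjoint T Q) (h3 : Disjoint T T') {f g : D.Pt → ℤ}
    {k : ι} (hk : k ∈ T) (hf : Z0 k f) : Z0 k (join T T' Q f g) := by
  intro x hx
  have hkQ : k ∉ Q := Finset.disjoint_left.mp h1 hk
  have hkT' : k ∉ T' := Finset.disjoint_left.mp h3 hk
  by_cases hc : Cd T T' Q x
  · have hcu : ∀ u, Cd T T' Q (Function.update x k (some u)) := fun u =>
      (cd_update (Or.inl hk) _).mpr hc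
    simp only [join_pos (hcu _), sq_update_not hkQ]
    rw [sum_comm]
    refine sum_eq_zero fun J hJ => ?_
    have hkJ : k ∈ T ∪ J := mem_union_left _ hk
    have hkQ' : k ∉ T' ∪ (Q \ J) := by
      rw [mem_union, not_or, mem_sdiff]
      exact ⟨hkT', fun h => hkQ h.1⟩
    simp only [rs_update_mem hkJ, rs_update_not hkQ']
    rw [← sum_mul, hf _ (rs_none hx), zero_mul]
  · refine sum_eq_zero fun u _ => ?_
    exact join_neg (fun h => hc ((cd_update (Or.inl hk) _).mp h))

/-- The norm with an index of the second factor. -/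
theorem join_Z0' {T T' Q : Finset ι} (h2 : Disjoint T' Q) (h3 : Disjoint T T') {f g : D.Pt → ℤ}
    {k : ι} (hk : k ∈ T') (hg : Z0 k g) : Z0 k (join T T' Q f g) := by
  intro x hx
  have hkQ : k ∉ Q := Finset.disjoint_left.mp h2 hk
  have hkT : k ∉ T := fun h => Finset.disjoint_left.mp h3 h hk
  by_cases hc : Cd T T' Q x
  · have hcu : ∀ u, Cd T T' Q (Function.update x k (some u)) := fun u =>
      (cd_update (Or.inr (Or.inl hk)) _).mpr hc
    simp only [join_pos (hcu _), sq_update_not hkQ]
    rw [sum_comm]
    refine sum_eq_zero fun J hJ => ?_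
    have hJQ : J ⊆ Q := (mem_powerset.mp hJ).trans (filter_subset _ _)
    have hkJ : k ∉ T ∪ J := by
      rw [mem_union, not_or]
      exact ⟨hkT, fun h => hkQ (hJQ h)⟩
    have hkQ' : k ∈ T' ∪ (Q \ J) := mem_union_left _ hk
    simp only [rs_update_not hkJ, rs_update_mem hkQ', Dat.act_update_some]
    rw [← mul_sum]
    have e := Equiv.sum_comp (Equiv.mulLeft ((∏ i ∈ J, D.α i : D.GG) k))
      (fun u => g (Function.update (D.act (∏ i ∈ J, D.α i) (rs (T' ∪ (Q \ J)) x)) k (some u)))
    simp only [Equiv.coe_mulLeft] at e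
    rw [e, hg _ (Dat.act_apply_none (rs_none hx)), mul_zero]
  · refine sum_eq_zero fun u _ => ?_
    exact join_neg (fun h => hc ((cd_update (Or.inr (Or.inl hk)) _).mp h))

/-- The support of the joint product. -/
theorem join_sp {T T' Q : Finset ι} {f g : D.Pt → ℤ}
    (hf : Sp T Q f) (hg : Sp T' Q g) : Sp (T ∪ T') Q (join T T' Q f g) := by
  intro x hx
  by_cases hc : Cd T T' Q x
  · rw [join_pos hc] at hx
    obtain ⟨J, hJ, hne⟩ := exists_ne_zero_of_sum_ne_zero hx
    have hJQ : J ⊆ Q := (mem_powerset.mp hJ).trans (filter_subset _ _)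
    have hf' := hf _ (left_ne_zero_of_mul hne)
    have hg' := hg _ (right_ne_zero_of_mul hne)
    refine ⟨fun i hi => ?_, fun i hi hiQ => ?_⟩
    · rcases mem_union.mp hi with h | h
      · have := hf'.1 i h
        rwa [rs_mem (mem_union_left _ h)] at this
      · have := hg'.1 i h
        rw [Ne, Dat.act_eq_none, rs_mem (mem_union_left _ h)] at this
        exact this
    · rw [mem_union, not_or] at hi
      exact hc i hi.1 hi.2 hiQ
  · exact absurd (join_neg hc) hx

/-- The action on the joint product. -/
theorem join_act (T T' Q : Finset ι) (f g : D.Pt → ℤ) (b : D.GG) (x : D.Pt) :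
    join T T' Q f g (D.act b x) =
      join T T' Q (fun y => f (D.act b y)) (fun y => g (D.act b y)) x := by
  by_cases hc : Cd T T' Q x
  · rw [join_pos hc, join_pos ((cd_act _ _).mpr hc), sq_act]
    refine sum_congr rfl fun J _ => ?_
    rw [rs_act, rs_act, Dat.act_act, Dat.act_act, mul_comm b]
  · rw [join_neg hc, join_neg (fun h => hc ((cd_act _ _).mp h))]

/-- The values on the points with support in `T ∪ T'`. -/
theorem join_val {T T' Q : Finset ι} (h1 : Disjoint T Q) (h2 : Disjoint T' Q) (f g : D.Pt → ℤ)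
    {x : D.Pt} (hx : D.Supp (T ∪ T') x) : join T T' Q f g x = f (rs T x) * g (rs T' x) := by
  have hc : Cd T T' Q x := fun i hT hT' _ => hx i (by rw [mem_union, not_or]; exact ⟨hT, hT'⟩)
  have hs : sq Q x = ∅ := by
    unfold sq
    rw [filter_eq_empty_iff]
    intro i hi h
    apply h
    apply hx
    rw [mem_union, not_or]
    exact ⟨fun h => Finset.disjoint_left.mp h1 h hi, fun h => Finset.disjoint_left.mp h2 h hi⟩
  rw [join_pos hc, hs, powerset_empty, sum_singleton, prod_empty, Dat.act_one, union_empty,
    sdiff_empty]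
  congr 2
  funext i
  by_cases hi : i ∈ T'
  · rw [rs_mem hi, rs_mem (mem_union_left _ hi)]
  · rw [rs_not hi]
    by_cases hi' : i ∈ T' ∪ Q
    · rw [rs_mem hi']
      have hiQ := (mem_union.mp hi').resolve_left hi
      apply hx
      rw [mem_union, not_or]
      exact ⟨fun h => Finset.disjoint_left.mp h1 h hiQ, hi⟩
    · rw [rs_not hi']

end Pool.Agent.N198.TB
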