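import Pool.Agent.N198.TB.Level
import Pool.Agent.N993.ThreeP

/-!
Hodge characters of odd degree with few entries.
-/

set_option linter.unusedSectionVars false

namespace Pool.Agent.N198.TB

open Finset Pool.Agent.H916R2 Pool.Agent.N992 Pool.Agent.N993 Pool.Agent.N998 Pool.Agent.H916K
  Pool.Agent.N198.TP

lemma exists_mult {κ : Type} [DecidableEq κ] (F : Finset κ) (l : ∀ T ∈ F, ℕ)
    (hl : ∀ T (h : T ∈ F), l T h ≠ 0) : ∃ L : ℕ, L ≠ 0 ∧ ∀ T (h : T ∈ F), l T h ∣ L := by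
  refine ⟨∏ T ∈ F.attach, l T.1 T.2, prod_ne_zero_iff.mpr fun T _ => hl T.1 T.2, ?_⟩
  intro T hT
  exact dvd_prod_of_mem (fun T : {x // x ∈ F} => l T.1 T.2) (mem_attach F ⟨T, hT⟩)

/-- Relations with few entries and even parities are killed by the modular characters. -/
theorem kill_P {P : Finset ℕ} {A : ℕ → ℕ} (hA : Choice P A)
    (hns : ∀ p ∈ P, ¬ IsSquare ((A p : ℕ) : ZMod p)) {U : Finset ℕ}
    (hU : ∀ x ∈ U, x.Prime ∧ x % 2 = 1) (hUP : ∀ p ∈ U, p % 4 = 1 → p ∈ P) :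
    ∃ l : ℕ, l ≠ 0 ∧ ∀ (K m M : ℕ) [NeZero m] [NeZero M], K * (l * m) = M →
      ∀ (Q : Type) [AddCommGroup Q] (c : ZMod M → Q), OddDist c →
      (∀ s, ModularCharacter M s → (s.map c).sum = 0) → ∀ y : ZMod m → ℤ, Lev U y →
      (∀ p ∈ P, ∑ b, y b • pr p m b = 0) → ∑ b, y b • c (iota (K * l) b) = 0 := by
  classical
  have hadm : Adm P U := ⟨fun x hx => Or.inl (hU x hx), fun p hp _ hp4 => hUP p hp hp4⟩
  have hG : ∀ T ∈ U.powersetCard 2, Good P A T := by
    intro T hT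
    rw [mem_powersetCard] at hT
    obtain ⟨x, y, hxy, rfl⟩ := card_eq_two.mp hT.2
    exact good_pair hA hxy (hadm.mono hT.1)
  choose lT hlT0 hlT using hG
  obtain ⟨l, hl0, hl⟩ := exists_mult _ lT hlT0
  refine ⟨l, hl0, ?_⟩
  intro K m M _ _ hKM Q _ c hc hmod y hy hpar
  -- the constants
  have hτ : ∀ p, ∃ τ : ZMod 2 →+ Q, p ∈ P → ∀ (m0 k' : ℕ) [NeZero m0], p * A p = m0 →
      k' * m0 = M → ∀ y : ZMod m0 → ℤ, H916R2.Rel y →
      ∑ b, y b • c (iota k' b) = τ (∑ b, y b • pr p m0 b) := by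
    intro p
    by_cases hp : p ∈ P
    · by_cases hdvd : p * A p ∣ M
      · obtain ⟨hpp, hp4, hAp, hA4, _⟩ := hA p hp
        obtain ⟨k1, hk1⟩ := hdvd
        have hn0 : NeZero (p * A p) := ⟨Nat.mul_ne_zero hpp.ne_zero hAp.ne_zero⟩
        have hk1' : k1 * (p * A p) = M := by rw [hk1]; ring
        obtain ⟨τ, hτ⟩ := exists_const hpp hAp (by omega) (by omega) (hA.ne hp) (hns p hp)
          (n := p * A p) rfl (hc.comp_iota hk1')
        refine ⟨τ, fun _ m0 k' _ hm0 hk' y hy => ?_⟩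
        subst hm0
        have hkk : k' = k1 := Nat.eq_of_mul_eq_mul_right (NeZero.pos _) (hk'.trans hk1'.symm)
        subst hkk
        exact hτ y hy
      · refine ⟨0, fun _ m0 k' _ hm0 hk' y hy => ?_⟩
        exact absurd (Dvd.intro_left k' (by rw [hm0]; exact hk')) hdvd
    · exact ⟨0, fun h => absurd h hp⟩
  choose τ hτ using hτ
  have hpp2 : ∀ p ∈ P, p.Prime ∧ p ≠ 2 ∧ p % 4 = 1 := fun p hp =>
    ⟨(hA p hp).1, by have := (hA p hp).2.1; omega, (hA p hp).2.1⟩
  set c' : ZMod M → Q := fun b => c b - ∑ p ∈ P, τ p (pr p M b) with hc'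
  have hc'D : OddDist c' := oddDist_sub hc (oddDist_sum P fun p hp =>
    oddDist_map (pr_odd (hpp2 p hp).1 (hpp2 p hp).2.1) (τ p))
  have hexp : ∀ (m0 k' : ℕ) [NeZero m0], k' * m0 = M → ∀ y : ZMod m0 → ℤ,
      ∑ b, y b • c' (iota k' b) = ∑ b, y b • c (iota k' b) -
        ∑ p ∈ P, τ p (∑ b, y b • pr p m0 b) := by
    intro m0 k' _ hk' y
    rw [← Pool.Agent.N198.TP.sum_smul_sum, ← sum_sub_distrib]
    refine sum_congr rfl fun b _ => ?_
    rw [hc', smul_sub]
    congr 2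
    refine sum_congr rfl fun p hp => ?_
    rw [pr_iota (hpp2 p hp).1 hk']
  have hkills : Kills P A c' := by
    refine ⟨fun s hs => ?_, fun p hp m0 k' _ hm0 hk' y hy => ?_⟩
    · rw [hc', Multiset.sum_map_sub, hmod s hs, sum_map_sum, zero_sub, neg_eq_zero]
      refine sum_eq_zero fun p hp => ?_
      rw [pr_modular (hpp2 p hp).1 (hpp2 p hp).2.2 hs, map_zero]
    · rw [hexp m0 k' hk' y, hτ p hp m0 k' hm0 hk' y hy, sum_eq_single p, sub_self]
      · intro p' hp' hne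
        have hnd : ¬ p' ∣ m0 := by
          rw [← hm0]
          intro h
          obtain ⟨h1, h2, h3⟩ := hpp2 p' hp'
          rcases (Nat.Prime.dvd_mul h1).mp h with h4 | h4
          · exact hne ((Nat.prime_dvd_prime_iff_eq h1 (hpp2 p hp).1).mp h4)
          · have h5 := (Nat.prime_dvd_prime_iff_eq h1 (hA p hp).2.2.1).mp h4
            have h6 := (hA p hp).2.2.2.1
            omega
        rw [pr_of_not_dvd hnd]
        simp
      · intro h; exact absurd hp h
  have hKM' : (K * l) * m = M := by rw [mul_assoc]; exact hKM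
  have h1 := hy Q _ (hc'D.comp_iota hKM') (by
    intro T hT hT2 mT l0 _ hmT hl0 x hx
    have hTm : T ∈ U.powersetCard 2 := mem_powersetCard.mpr ⟨hT, hT2⟩
    obtain ⟨e, he⟩ := hl T hTm
    have h2 := hlT T hTm (K * e * l0) M mT hmT (by
      rw [← hKM, ← hl0, he]; ring) Q c' hc'D hkills x hx
    rw [← h2]
    refine sum_congr rfl fun b _ => ?_
    beta_reduce
    have e1 : K * l * l0 = K * e * l0 * lT T hTm := by rw [he]; ring
    rw [iota_comp hKM', e1])
  beta_reduce at h1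
  rw [hexp m (K * l) hKM' y] at h1
  have h2 : ∑ p ∈ P, τ p (∑ b, y b • pr p m b) = 0 :=
    sum_eq_zero fun p hp => by rw [hpar p hp, map_zero]
  rw [h2, sub_zero] at h1
  exact h1

/-- Relations with few entries are killed by the base. -/
theorem kill_F {U : Finset ℕ} (hU : ∀ x ∈ U, x.Prime ∧ x % 2 = 1)
    (hUP : ∀ p ∈ U, p % 4 = 1 → (∀ j ∈ U, j ≠ p → IsSquare ((j : ℕ) : ZMod p)) ∨
      p = 5 ∨ p = 13 ∨ p = 17) :
    ∃ l : ℕ, l ≠ 0 ∧ ∀ (K m M : ℕ) [NeZero m] [NeZero M], K * (l * m) = M →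
      ∀ (Q : Type) [AddCommGroup Q] (c : ZMod M → Q), OddDist c →
      (∀ s, FourBase M s → (s.map c).sum = 0) → ∀ y : ZMod m → ℤ, Lev U y →
      ∑ b, y b • c (iota (K * l) b) = 0 := by
  classical
  have hsmall : Pool.Agent.N993.SmallSet U := ⟨fun x hx => Or.inl (hU x hx), fun p hp hp4 => by
    rcases hUP p hp hp4 with h | h
    · left
      refine ⟨h, fun h4 => ?_⟩
      have := (hU 4 h4).2
      omega
    · right; exact h⟩
  have hG : ∀ T ∈ U.powersetCard 2, Pool.Agent.N993.Good T := by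
    intro T hT
    rw [mem_powersetCard] at hT
    obtain ⟨x, y, hxy, rfl⟩ := card_eq_two.mp hT.2
    exact _root_.Pool.Agent.N993.good_pair hxy (hsmall.mono hT.1)
  choose lT hlT0 hlT using hG
  obtain ⟨l, hl0, hl⟩ := exists_mult _ lT hlT0
  refine ⟨l, hl0, ?_⟩
  intro K m M _ _ hKM Q _ c hc hbase y hy
  have hKM' : (K * l) * m = M := by rw [mul_assoc]; exact hKM
  have h1 := hy Q _ (hc.comp_iota hKM') (by
    intro T hT hT2 mT l0 _ hmT hl0 x hx
    have hTm : T ∈ U.powersetCard 2 := mem_powersetCard.mpr ⟨hT, hT2⟩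
    obtain ⟨e, he⟩ := hl T hTm
    have h2 := hlT T hTm (K * e * l0) M mT hmT (by
      rw [← hKM, ← hl0, he]; ring) Q c hc hbase x hx
    rw [← h2]
    refine sum_congr rfl fun b _ => ?_
    beta_reduce
    have e1 : K * l * l0 = K * e * l0 * lT T hTm := by rw [he]; ring
    rw [iota_comp hKM', e1])
  exact h1

/-- A number with given odd prime factors. -/
lemma prime_data {m : ℕ} (hm0 : m ≠ 0) (hodd : m % 2 = 1) :
    (∀ x ∈ m.primeFactors, x.Prime ∧ x % 2 = 1) ∧ (∃ k, k * ∏ x ∈ m.primeFactors, x = m) ∧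
      ∀ p, p.Prime → p ∣ m → p ∈ m.primeFactors := by
  refine ⟨fun x hx => ?_, ?_, fun p hp hpm => Nat.mem_primeFactors.mpr ⟨hp, hpm, hm0⟩⟩
  · have h1 := Nat.prime_of_mem_primeFactors hx
    refine ⟨h1, ?_⟩
    rcases h1.eq_two_or_odd with h | h
    · have h2 := Nat.dvd_of_mem_primeFactors hx
      rw [h] at h2
      omega
    · exact h
  · obtain ⟨k, hk⟩ := Nat.prod_primeFactors_dvd m
    exact ⟨k, by rw [mul_comm]; exact hk.symm⟩

lemma abs_count {m : ℕ} [NeZero m] (s : Multiset (ZMod m)) :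
    ∑ a, |((s.count a : ℕ) : ℤ)| = Multiset.card s := by
  rw [← Multiset.toFinset_sum_count_eq s]
  push_cast
  rw [← sum_subset (subset_univ s.toFinset)]
  · exact sum_congr rfl fun a _ => by rw [abs_of_nonneg (by positivity)]
  · intro a _ ha
    rw [Multiset.mem_toFinset] at ha
    rw [Multiset.count_eq_zero_of_notMem ha]
    simp

/-- **Hodge characters of odd degree with few entries.** -/
theorem hodge_odd (m : ℕ) [NeZero m] (hodd : m % 2 = 1)
    (hP : ∀ p : ℕ, p.Prime → p ∣ m → p % 4 = 1 →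
      (∀ q : ℕ, q.Prime → q ∣ m → q ≠ p → IsSquare (q : ZMod p)) ∨ p = 5 ∨ p = 13 ∨ p = 17) :
    ∃ l : ℕ, ∃ _ : NeZero (l * m), ∀ s : Multiset (ZMod m), IsHodge m s → s ≠ 0 →
      Large (Multiset.card s) m.primeFactors →
      Generated (l * m) (FourBase (l * m)) (s.map (iota l : ZMod m → ZMod (l * m))) := by
  classical
  obtain ⟨hU, ⟨k, hk⟩, hpr⟩ := prime_data (NeZero.ne m) hodd
  obtain ⟨l, hl0, hkill⟩ := kill_F hU (fun p hp hp4 => by
    have h1 := hU p hp
    rcases hP p h1.1 (Nat.dvd_of_mem_primeFactors hp) hp4 with h | h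
    · left
      intro j hj hjp
      exact h j (hU j hj).1 (Nat.dvd_of_mem_primeFactors hj) hjp
    · right; exact h)
  have hlm : NeZero (l * m) := ⟨Nat.mul_ne_zero hl0 (NeZero.ne m)⟩
  refine ⟨l, hlm, fun s hs hne hL => ?_⟩
  have hsl : IsHodge (l * m) (s.map (iota l : ZMod m → ZMod (l * m))) := hs.iota rfl
  have h1 := hkill 1 m (l * m) (one_mul _) _
    (cQ (l * m) (FourBase (l * m))) cQ_oddDist (by
      intro s0 hs0
      exact cQ_sum_eq_zero (Generated.ofBase (m := l * m) (base := FourBase (l * m)) s0 hs0))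
    _ (level_main hU hL hk hpr hodd _ hs.rel (abs_count s).le)
  rw [one_mul, sum_count] at h1
  have h4 : ((s.map (iota l : ZMod m → ZMod (l * m))).map
      (cQ (l * m) (FourBase (l * m)))).sum = 0 := by
    rw [Multiset.map_map]; exact h1
  rw [cQ_sum, QuotientAddGroup.eq_zero_iff] at h4
  refine generated_of_mem_LL ?_ ?_ hsl.1 hsl.2.1 ?_ h4
  · rintro s (hs | hs)
    · exact Pool.Agent.Y2.Cv.base_good s hs
    · exact ⟨hs.1.1, hs.1.2.1⟩
  · rintro s (hs | hs)
    · exact Or.inl (Pool.Agent.Y2.Cv.base_neg s hs)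
    · exact Or.inr hs.neg
  · intro h5
    exact hne (Multiset.map_eq_zero.mp h5)

/-- passage to generation -/
lemma gen_of_lev (m : ℕ) [NeZero m] (U : Finset ℕ) (hU : ∀ x ∈ U, x.Prime ∧ x % 2 = 1)
    (hUm : ∀ x ∈ U, x ∣ m) :
    ∃ l : ℕ, ∃ _ : NeZero (l * m), ∀ s : Multiset (ZMod m), IsHodge m s → s ≠ 0 →
      Lev U (fun a : ZMod m => ((s.count a : ℕ) : ℤ)) →
      (∀ p : ℕ, p.Prime → p ∣ m → p % 4 = 1 → (s.map (pr p m)).sum = 0) →
      Generated (l * m) (ModularCharacter (l * m)) (s.map (iota l : ZMod m → ZMod (l * m))) := by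
  classical
  set P : Finset ℕ := U.filter (fun p => p % 4 = 1) with hP
  have hPp : ∀ p ∈ P, p.Prime ∧ p % 4 = 1 := fun p hp =>
    ⟨(hU p (mem_filter.mp hp).1).1, (mem_filter.mp hp).2⟩
  obtain ⟨A, hA, hns⟩ := exists_choice P hPp
  obtain ⟨l, hl0, hkill⟩ := kill_P hA hns hU (fun p hp hp4 => mem_filter.mpr ⟨hp, hp4⟩)
  have hlm : NeZero (l * m) := ⟨Nat.mul_ne_zero hl0 (NeZero.ne m)⟩
  refine ⟨l, hlm, fun s hs hne hL hpar => ?_⟩
  have hsl : IsHodge (l * m) (s.map (iota l : ZMod m → ZMod (l * m))) := hs.iota rfl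
  have h1 := hkill 1 m (l * m) (one_mul _) _
    (cQ (l * m) (ModularCharacter (l * m))) cQ_oddDist (by
      intro s0 hs0
      exact cQ_sum_eq_zero (Generated.ofBase (m := l * m) (base := ModularCharacter (l * m)) s0 hs0))
    _ hL (by
      intro p hp
      rw [sum_count]
      exact hpar p (hPp p hp).1 (hUm p (mem_filter.mp hp).1) (hPp p hp).2)
  rw [one_mul, sum_count] at h1
  have h4 : ((s.map (iota l : ZMod m → ZMod (l * m))).map
      (cQ (l * m) (ModularCharacter (l * m)))).sum = 0 := by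
    rw [Multiset.map_map]; exact h1
  rw [cQ_sum, QuotientAddGroup.eq_zero_iff] at h4
  refine generated_of_mem_LL (fun s hs => ⟨hs.1.1, hs.1.2.1⟩) (fun s hs => hs.neg) hsl.1 hsl.2.1 ?_ h4
  intro h5
  exact hne (Multiset.map_eq_zero.mp h5)

/-- **Hodge characters of odd degree with few entries and even parities.** -/
theorem rational_odd (m : ℕ) [NeZero m] (hodd : m % 2 = 1) :
    ∃ l : ℕ, ∃ _ : NeZero (l * m), ∀ s : Multiset (ZMod m), IsHodge m s → s ≠ 0 →
      Large (Multiset.card s) m.primeFactors →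
      (∀ p : ℕ, p.Prime → p ∣ m → p % 4 = 1 → (s.map (pr p m)).sum = 0) →
      Generated (l * m) (ModularCharacter (l * m)) (s.map (iota l : ZMod m → ZMod (l * m))) := by
  obtain ⟨hU, ⟨k, hk⟩, hpr⟩ := prime_data (NeZero.ne m) hodd
  obtain ⟨l, hl, h⟩ := gen_of_lev m m.primeFactors hU (fun x hx => Nat.dvd_of_mem_primeFactors hx)
  exact ⟨l, hl, fun s hs hne hL hpar => h s hs hne
    (level_main hU hL hk hpr hodd _ hs.rel (abs_count s).le) hpar⟩

/-- **Hodge characters of twice an odd degree with few entries and even parities.** -/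
theorem rational_two (m : ℕ) [NeZero m] (h2 : m % 4 = 2) :
    ∃ l : ℕ, ∃ _ : NeZero (l * m), ∀ s : Multiset (ZMod m), IsHodge m s → s ≠ 0 →
      Large (2 * Multiset.card s) (m.primeFactors.erase 2) →
      (∀ p : ℕ, p.Prime → p ∣ m → p % 4 = 1 → (s.map (pr p m)).sum = 0) →
      Generated (l * m) (ModularCharacter (l * m)) (s.map (iota l : ZMod m → ZMod (l * m))) := by
  obtain ⟨m', hm'⟩ : ∃ m', m = 2 * m' := ⟨m / 2, by omega⟩
  subst hm'
  have hm'0 : NeZero m' := ⟨by rintro rfl; omega⟩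
  have hodd : m' % 2 = 1 := by omega
  obtain ⟨hU, ⟨k, hk⟩, hpr⟩ := prime_data (NeZero.ne m') hodd
  have hUe : (2 * m').primeFactors.erase 2 = m'.primeFactors := by
    ext p
    rw [mem_erase, Nat.mem_primeFactors, Nat.mem_primeFactors]
    constructor
    · rintro ⟨h1, hp, h3, _⟩
      refine ⟨hp, ?_, NeZero.ne m'⟩
      exact (Nat.Coprime.dvd_of_dvd_mul_left ((Nat.coprime_primes hp Nat.prime_two).mpr h1) h3)
    · rintro ⟨hp, h3, _⟩
      refine ⟨?_, hp, h3.mul_left 2, NeZero.ne _⟩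
      rintro rfl
      omega
  rw [hUe]
  obtain ⟨l, hl, h⟩ := gen_of_lev (2 * m') m'.primeFactors hU
    (fun x hx => (Nat.dvd_of_mem_primeFactors hx).mul_left 2)
  refine ⟨l, hl, fun s hs hne hL hpar => h s hs hne
    (level_two hU hL hk hpr hodd _ hs.rel ?_) hpar⟩
  have := abs_count s
  push_cast
  rw [this]

/-- Fewer than 30 entries suffice. -/
lemma large_thirty {C : ℕ} (hC : C < 30) {U : Finset ℕ} (hU : ∀ x ∈ U, x.Prime ∧ x % 2 = 1) :
    Large C U := by
  intro T hT hc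
  have := Pool.Agent.N353.TB.prime_thirty T (fun p hp => hU p (hT hp)) hc
  omega

end Pool.Agent.N198.TB
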