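import Pool.Agent.N198.TB.Block

/-!
Box distributions.
-/

set_option linter.unusedSectionVars false

namespace Pool.Agent.N198.TB

open Finset Pool.Agent.N993

variable {ι : Type} [DecidableEq ι] {D : Dat ι} [Fintype ι]

/-- Box distributions. -/
structure Lam (T Q : Finset ι) (L : D.Pt → ℤ) : Prop where
  sp : Sp T Q L
  rel : ∀ q ∈ Q, Rl q L
  z0 : ∀ k ∈ T, Z0 k L
  odd : ∀ x, L (D.act D.c x) = (-1) ^ T.card * L x
  val : ∀ x, D.Supp T x → L x = box T x
  norm : ∀ J ⊆ Q, S1 (T ∪ J) L * wg D (T ∪ J) * ((T.card - 1).factorial : ℤ) ≤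
    MM D * (2 ^ (T.card + J.card) * ((T.card + J.card - 1).factorial : ℤ))

/-- one block -/
lemma blk_sub {k : ι} {Q : Finset ι} {B : D.Pt → ℤ} (hk : k ∉ Q) (hB : Blk k Q B) :
    Lam {k} Q (fun x => B x - B (D.act D.c x)) where
  sp := hB.sp.sub (hB.sp.act _)
  rel := fun q hq => (hB.rel q hq).sub ((hB.rel q hq).act _)
  z0 := by
    intro k' hk'
    rw [mem_singleton] at hk'
    subst hk'
    intro x hx
    have := hB.Z0_sub D.c x hx
    rw [← neg_eq_zero, ← sum_neg_distrib] at this
    rw [← this]
    exact sum_congr rfl fun u _ => by ring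
  odd := by
    intro x
    have : D.act D.c (D.act D.c x) = x := by
      rw [Dat.act_act]
      have : D.c * D.c = 1 := by funext i; exact D.hc i
      rw [this, Dat.act_one]
    rw [this, card_singleton]
    ring
  val := by
    intro x hx
    rw [hB.val x hx, hB.val _ (hx.act _)]
    unfold box
    rw [prod_singleton]
    unfold bx
    congr 1
    cases hxk : x k with
    | none => rw [Dat.act_apply_none hxk]; simp
    | some u =>
      rw [Dat.act_apply_some hxk]
      have : (D.c k * u = 1) ↔ u = D.c k := by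
        constructor
        · intro h
          have h2 : D.c k * (D.c k * u) = D.c k * 1 := by rw [h]
          rwa [← mul_assoc, D.hc, one_mul, mul_one] at h2
        · intro h; rw [h, D.hc]
      simp only [Option.some.injEq, this]
  norm := by
    intro J hJ
    have h1 : S1 ({k} ∪ J) (fun x => B x - B (D.act D.c x)) ≤ 2 * S1 ({k} ∪ J) B := by
      have := S1_sub ({k} ∪ J) B (fun x => B (D.act D.c x))
      rw [S1_act] at this
      linarith
    have h2 := mul_le_mul_of_nonneg_right h1 (wg_pos (D := D) ({k} ∪ J)).le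
    have h3 := hB.norm J hJ
    rw [card_singleton, Nat.sub_self, Nat.factorial_zero, Nat.add_sub_cancel_left, pow_add]
    push_cast
    calc _ = S1 ({k} ∪ J) (fun x => B x - B (D.act D.c x)) * wg D ({k} ∪ J) := by ring
      _ ≤ 2 * S1 ({k} ∪ J) B * wg D ({k} ∪ J) := h2
      _ = 2 * (S1 ({k} ∪ J) B * wg D ({k} ∪ J)) := by ring
      _ ≤ 2 * (MM D * (2 ^ J.card * J.card.factorial)) := by linarith
      _ = _ := by ring

lemma lam_insert {k : ι} {T Q : Finset ι} (hT : T.Nonempty) (hkT : k ∉ T) (hkQ : k ∉ Q)
    (hTQ : Disjoint T Q) {A L : D.Pt → ℤ} (hA : Lam {k} Q A) (hL : Lam T Q L) :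
    Lam ({k} ∪ T) Q (join {k} T Q A L) := by
  have d1 : Disjoint ({k} : Finset ι) Q := disjoint_singleton_left.mpr hkQ
  have d3 : Disjoint ({k} : Finset ι) T := disjoint_singleton_left.mpr hkT
  have hcard : (({k} : Finset ι) ∪ T).card = T.card + 1 := by
    rw [card_union_of_disjoint d3, card_singleton, add_comm]
  have ht : 1 ≤ T.card := card_pos.mpr hT
  refine ⟨join_sp hA.sp hL.sp, fun q hq => join_rel d1 hTQ hq (hA.rel q hq) (hL.rel q hq),
    ?_, ?_, ?_, ?_⟩
  · intro k' hk'
    rcases mem_union.mp hk' with h | h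
    · exact join_Z0 d1 d3 h (hA.z0 k' h)
    · exact join_Z0' hTQ d3 h (hL.z0 k' h)
  · intro x
    rw [join_act]
    have e1 : (fun y => A (D.act D.c y)) = fun y => (-1) ^ ({k} : Finset ι).card * A y :=
      funext hA.odd
    have e2 : (fun y => L (D.act D.c y)) = fun y => (-1) ^ T.card * L y := funext hL.odd
    rw [e1, e2, join_smul, hcard, card_singleton]
    ring
  · intro x hx
    rw [join_val d1 hTQ A L hx, hA.val _ (fun i hi => rs_not hi), hL.val _ (fun i hi => rs_not hi)]
    unfold box
    rw [prod_union d3]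
    congr 1
    · exact prod_congr rfl fun i hi => by
        change bx i (rs {k} x i) = _
        rw [rs_mem hi]
    · exact prod_congr rfl fun i hi => by
        change bx i (rs T x i) = _
        rw [rs_mem hi]
  · intro J hJ
    have key := join_bound d1 hTQ d3 hJ (f := A) (g := L) (w := ((T.card - 1).factorial : ℤ))
      (by positivity) (C := fun i => 2 ^ (1 + i) * (i.factorial : ℤ))
      (C' := fun i => 2 ^ (T.card + i) * ((T.card + i - 1).factorial : ℤ))
      (fun i => by positivity) (by
        intro J hJ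
        have := hA.norm J hJ
        rw [card_singleton, Nat.sub_self, Nat.factorial_zero, Nat.add_sub_cancel_left] at this
        push_cast at this
        rw [mul_one] at this
        exact this) hL.norm
    beta_reduce at key
    have hsum : (T.card : ℤ) * ∑ J' ∈ J.powerset, (2 : ℤ) ^ (1 + J'.card) *
        (J'.card.factorial : ℤ) * (2 ^ (T.card + (J \ J').card) *
          ((T.card + (J \ J').card - 1).factorial : ℤ)) =
        2 ^ (T.card + 1 + J.card) * ((T.card + J.card).factorial : ℤ) := by
      have hc := Pool.Agent.N441.TB.comb J T.card ht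
      have hc' : (T.card : ℤ) * ((∑ J' ∈ J.powerset, (J'.card).factorial *
        (T.card + (J \ J').card - 1).factorial : ℕ) : ℤ) = (((T.card + J.card).factorial : ℕ) : ℤ) := by
        rw [← hc]; push_cast; ring
      rw [← hc']
      push_cast
      rw [mul_sum, mul_sum, mul_sum]
      refine sum_congr rfl fun J' hJ' => ?_
      have h1 : J'.card + (J \ J').card = J.card := by
        rw [add_comm]; exact card_sdiff_add_card_eq_card (mem_powerset.mp hJ')
      rw [← h1]
      ring
    have hfac : ((({k} : Finset ι) ∪ T).card - 1).factorial = T.card * (T.card - 1).factorial := by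
      rw [hcard, Nat.add_sub_cancel]
      exact (Nat.mul_factorial_pred (by omega)).symm
    have h2 : (({k} : Finset ι) ∪ T).card + J.card - 1 = T.card + J.card := by
      rw [hcard]; omega
    rw [hfac, h2, hcard, ← hsum]
    push_cast
    have h3 := mul_le_mul_of_nonneg_left key (Nat.cast_nonneg (α := ℤ) T.card)
    calc _ = (T.card : ℤ) * (S1 ({k} ∪ T ∪ J) (join {k} T Q A L) * wg D ({k} ∪ T ∪ J) *
          ((T.card - 1).factorial : ℤ)) := by ring
      _ ≤ _ := h3
      _ = _ := by ring

/-- Existence of box distributions. -/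
theorem exists_lam (T Q : Finset ι) (hT : T.Nonempty) (hTQ : Disjoint T Q) :
    ∃ L : D.Pt → ℤ, Lam T Q L := by
  induction hT using Finset.Nonempty.cons_induction with
  | singleton k =>
    have hk : k ∉ Q := disjoint_singleton_left.mp hTQ
    obtain ⟨B, hB⟩ := exists_block (D := D) Q k hk
    exact ⟨_, blk_sub hk hB⟩
  | cons k T hkT hT ih =>
    rw [cons_eq_insert, disjoint_insert_left] at hTQ
    obtain ⟨L, hL⟩ := ih hTQ.2
    obtain ⟨B, hB⟩ := exists_block (D := D) Q k hTQ.1
    rw [cons_eq_insert]
    exact ⟨_, lam_insert hT hkT hTQ.1 hTQ.2 (blk_sub hTQ.1 hB) hL⟩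

end Pool.Agent.N198.TB
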