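import Pool.Agent.N198.TB.Two
import Pool.Agent.N277.TB.DEC
import Pool.Agent.N55.TB.Core
import Pool.Agent.N198.TP.Full

/-!
Relations with few entries and odd distributions which kill the relations of all pairs.
-/

set_option linter.unusedSectionVars false

namespace Pool.Agent.N198.TB

open Finset Pool.Agent.H916R2 Pool.Agent.N992 Pool.Agent.N993

/-- any four prime factors are large with respect to `C` -/
def Large (C : ℕ) (U : Finset ℕ) : Prop :=
  ∀ T ⊆ U, T.card = 4 → 16 * C < ∏ p ∈ T, (p - 1)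

/-- Every odd distribution which kills all relations of the pairs of primes in `U` kills `y`. -/
def Lev (U : Finset ℕ) {m : ℕ} [NeZero m] (y : ZMod m → ℤ) : Prop :=
  ∀ (Q : Type) [AddCommGroup Q] (c : ZMod m → Q), OddDist c →
    (∀ T ⊆ U, T.card = 2 → ∀ (mT l : ℕ) [NeZero mT], ∏ x ∈ T, x = mT → l * mT = m →
      ∀ x : ZMod mT → ℤ, Rel x → ∑ b, x b • c (iota l b) = 0) → ∑ a, y a • c a = 0

/-- The general form of the theorem on one level. -/
theorem level_gen {U : Finset ℕ} (hU : ∀ x ∈ U, x.Prime ∧ x % 2 = 1)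
    {k m : ℕ} [NeZero m] [NeZero (∏ i : Ix U, nn U i)] (hk : k * ∏ i : Ix U, nn U i = m)
    (hred : Red m (∏ i : Ix U, nn U i) k) [∀ i : Ix U, NeZero (nn U i)]
    (hco : Pairwise (fun i j : Ix U => (nn U i).Coprime (nn U j)))
    (E : (∀ i, ZMod (nn U i)) ≃+* ZMod (∏ i : Ix U, nn U i))
    {lam : Finset (Ix U) → (cyc (nn U)).Pt → ℤ} (hlam : Fam (nn U) lam)
    (y : ZMod m → ℤ) (hy : Rel y)
    (hF : ∀ T : Finset (Ix U), Even T.card → 4 ≤ T.card → ∃ F : ZMod m → ZMod 2, OddDist F ∧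
      (∀ b : ZMod (∏ i : Ix U, nn U i), F (iota k b) = ((lam T (pt (E.symm b)) : ℤ) : ZMod 2)) ∧
      ∑ a, y a • F a = 0) : Lev U y := by
  classical
  intro Q _ c hc hpair
  have hn : ∀ i : Ix U, (nn U i).Prime ∧ nn U i % 2 = 1 := fun i => hU i i.2
  have hmap : ∀ T : Finset (Ix U), ∏ i ∈ T, nn U i = ∏ x ∈ T.map (Function.Embedding.subtype _), x :=
    fun T => by rw [prod_map]; rfl
  have hsub : ∀ T : Finset (Ix U), T.map (Function.Embedding.subtype _) ⊆ U := by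
    intro T x hx
    obtain ⟨y, _, rfl⟩ := mem_map.mp hx
    exact y.2
  have hF2 : ∀ T : Finset (Ix U), ∃ F : ZMod m → ZMod 2, OddDist F ∧
      ∑ a, y a • F a = 0 ∧ (Even T.card → 4 ≤ T.card → ∀ b : ZMod (∏ i : Ix U, nn U i),
        F (iota k b) = ((lam T (pt (E.symm b)) : ℤ) : ZMod 2)) := by
    intro T
    by_cases h : Even T.card ∧ 4 ≤ T.card
    · obtain ⟨F, h1, h2, h3⟩ := hF T h.1 h.2
      exact ⟨F, h1, h3, fun _ _ => h2⟩
    · refine ⟨fun _ => 0, ⟨fun _ => by simp, fun _ _ => rfl, fun _ _ _ _ _ => by simp⟩, by simp,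
        fun h1 h2 => absurd ⟨h1, h2⟩ h⟩
  choose F hFD hFy hFb using hF2
  obtain ⟨x0, hx0, he⟩ := hred _ _
    (Pool.Agent.N198.TP.oddDist_pair hc (Pool.Agent.N198.TP.oddDist_pi hFD)) y hy
  have he1 := congrArg Prod.fst he
  have he2 := congrArg Prod.snd he
  rw [Prod.fst_sum, Prod.fst_sum] at he1
  rw [Prod.snd_sum, Prod.snd_sum] at he2
  simp only [Prod.smul_fst] at he1
  simp only [Prod.smul_snd] at he2
  rw [he1]
  refine Pool.Agent.N55.TB.core_odd_of (n := nn U)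
    (fun hfree lam hlam nu h1 h2 h3 => Pool.Agent.N277.TB.dec hfree univ lam hlam nu h1 h2 h3)
    hn hco rfl E (c := fun b => c (iota k b)) (hc.comp_iota hk) ?_ lam (fam_spec hn hlam) x0 hx0 ?_
  · intro T hT mT l _ hmT hl x hx
    have h1 := hpair (T.map (Function.Embedding.subtype _)) (hsub T) (by rw [card_map]; exact hT)
      mT (k * l) (by rw [← hmap]; exact hmT) (by rw [mul_assoc, hl, hk]) x hx
    rw [← h1]
    refine sum_congr rfl fun b _ => ?_
    rw [iota_comp hk]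
  · intro T h2 h4
    have h1 := congrFun he2 T
    rw [Finset.sum_apply, Finset.sum_apply] at h1
    simp only [Pi.smul_apply] at h1
    rw [hFy T] at h1
    simp only [hFb T h2 h4] at h1
    refine (ZMod.intCast_zmod_eq_zero_iff_dvd _ 2).mp ?_
    push_cast
    refine Eq.trans (sum_congr rfl fun b _ => ?_) h1.symm
    rw [zsmul_eq_mul]

lemma large_map {U : Finset ℕ} {C : ℕ} (hC : Large C U) :
    ∀ T : Finset (Ix U), T.card = 4 → 16 * C < ∏ i ∈ T, (nn U i - 1) := by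
  intro T hT
  have hsub : T.map (Function.Embedding.subtype _) ⊆ U := by
    intro x hx
    obtain ⟨y, _, rfl⟩ := mem_map.mp hx
    exact y.2
  have := hC (T.map (Function.Embedding.subtype _)) hsub (by rw [card_map]; exact hT)
  rwa [prod_map] at this

/-- The main theorem on one odd level. -/
theorem level_main {U : Finset ℕ} (hU : ∀ x ∈ U, x.Prime ∧ x % 2 = 1) {C : ℕ} (hC : Large C U)
    {k m : ℕ} [NeZero m] (hk : k * ∏ x ∈ U, x = m) (hpr : ∀ p, p.Prime → p ∣ m → p ∈ U)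
    (hodd : m % 2 = 1) (y : ZMod m → ℤ) (hy : Rel y) (hyC : ∑ a, |y a| ≤ C) : Lev U y := by
  classical
  have hnz : ∀ i : Ix U, NeZero (nn U i) := fun i =>
    ⟨by have := (hU i i.2).1.pos; change (i : ℕ) ≠ 0; omega⟩
  have hn : ∀ i : Ix U, (nn U i).Prime ∧ nn U i % 2 = 1 := fun i => hU i i.2
  have hco : Pairwise (fun i j : Ix U => (nn U i).Coprime (nn U j)) := fun i j hij =>
    (Nat.coprime_primes (hn i).1 (hn j).1).mpr (fun h => hij (Subtype.ext h))
  have hprodU : ∏ i : Ix U, nn U i = ∏ x ∈ U, x := Finset.prod_coe_sort U (fun x => x)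
  have hN0 : ∏ i : Ix U, nn U i ≠ 0 := prod_ne_zero_iff.mpr fun i _ => (hnz i).out
  have hNZ : NeZero (∏ i : Ix U, nn U i) := ⟨hN0⟩
  have hk' : k * ∏ i : Ix U, nn U i = m := by rw [hprodU]; exact hk
  have hpr' : ∀ p, p.Prime → p ∣ m → p ∣ ∏ i : Ix U, nn U i := fun p hp hpm => by
    rw [hprodU]; exact dvd_prod_of_mem (fun x => x) (hpr p hp hpm)
  obtain ⟨lam, hlam⟩ := exists_fam (nn U)
  refine level_gen hU hk' (red_exists k m _ k rfl hk' hpr' (fun h => by omega)) hco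
    (ZMod.prodEquivPi (nn U) hco).symm hlam y hy fun T h2 h4 => ?_
  obtain ⟨F, h1, h3, h5⟩ := small_even hn hco rfl (ZMod.prodEquivPi (nn U) hco).symm
    (large_map hC) h2 h4 (hlam T h2 h4) hk' hpr' hodd
  exact ⟨F, h1, h3, h5 y hy hyC⟩

/-- The main theorem on one double level. -/
theorem level_two {U : Finset ℕ} (hU : ∀ x ∈ U, x.Prime ∧ x % 2 = 1) {C : ℕ} (hC : Large C U)
    {k m' : ℕ} [NeZero m'] [NeZero (2 * m')] (hk : k * ∏ x ∈ U, x = m')
    (hpr : ∀ p, p.Prime → p ∣ m' → p ∈ U)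
    (hodd : m' % 2 = 1) (y : ZMod (2 * m') → ℤ) (hy : Rel y) (hyC : 2 * ∑ a, |y a| ≤ C) :
    Lev U y := by
  classical
  have hnz : ∀ i : Ix U, NeZero (nn U i) := fun i =>
    ⟨by have := (hU i i.2).1.pos; change (i : ℕ) ≠ 0; omega⟩
  have hn : ∀ i : Ix U, (nn U i).Prime ∧ nn U i % 2 = 1 := fun i => hU i i.2
  have hco : Pairwise (fun i j : Ix U => (nn U i).Coprime (nn U j)) := fun i j hij =>
    (Nat.coprime_primes (hn i).1 (hn j).1).mpr (fun h => hij (Subtype.ext h))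
  have hprodU : ∏ i : Ix U, nn U i = ∏ x ∈ U, x := Finset.prod_coe_sort U (fun x => x)
  have hN0 : ∏ i : Ix U, nn U i ≠ 0 := prod_ne_zero_iff.mpr fun i _ => (hnz i).out
  have hNZ : NeZero (∏ i : Ix U, nn U i) := ⟨hN0⟩
  have hk' : k * ∏ i : Ix U, nn U i = m' := by rw [hprodU]; exact hk
  have hpr' : ∀ p, p.Prime → p ∣ m' → p ∣ ∏ i : Ix U, nn U i := fun p hp hpm => by
    rw [hprodU]; exact dvd_prod_of_mem (fun x => x) (hpr p hp hpm)
  obtain ⟨lam, hlam⟩ := exists_fam (nn U)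
  refine level_gen hU (k := 2 * k) (by rw [mul_assoc, hk']) (Red.trans rfl (red_two hodd)
    (red_exists k m' _ k rfl hk' hpr' (fun h => by omega))) hco
    (ZMod.prodEquivPi (nn U) hco).symm hlam y hy fun T h2 h4 => ?_
  obtain ⟨F, h1, h3, h5⟩ := small_even_two hn hco rfl (ZMod.prodEquivPi (nn U) hco).symm
    (large_map hC) h2 h4 (hlam T h2 h4) hk' hpr' hodd
  exact ⟨F, h1, h3, h5 y hy hyC⟩

end Pool.Agent.N198.TB
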