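import Pool.Agent.N198.TB.Lam
import Pool.Agent.N31.TB.Ext
import Pool.Agent.N433.TB.Pull
import Pool.Agent.N353.TB.PRIMES

/-!
Relations with few entries have even box parities.
-/

set_option linter.unusedSectionVars false

namespace Pool.Agent.N198.TB

open Finset Pool.Agent.H916R2 Pool.Agent.N992 Pool.Agent.N993

section

variable {ι : Type} [Fintype ι] [LinearOrder ι] {n : ι → ℕ} [∀ i, NeZero (n i)] {N : ℕ} [NeZero N]

/-- a family of box distributions -/
def Fam (n : ι → ℕ) [∀ i, NeZero (n i)] (lam : Finset ι → (cyc n).Pt → ℤ) : Prop :=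
  ∀ T, Even T.card → 4 ≤ T.card → Lam T (univ \ T) (lam T)

lemma exists_fam (n : ι → ℕ) [∀ i, NeZero (n i)] : ∃ lam : Finset ι → (cyc n).Pt → ℤ, Fam n lam := by
  have h : ∀ T : Finset ι, ∃ L : (cyc n).Pt → ℤ, T.Nonempty → Lam T (univ \ T) L := by
    intro T
    by_cases hT : T.Nonempty
    · obtain ⟨L, hL⟩ := exists_lam (D := cyc n) T (univ \ T) hT disjoint_sdiff
      exact ⟨L, fun _ => hL⟩
    · exact ⟨0, fun h => absurd h hT⟩
  choose lam hlam using h
  exact ⟨lam, fun T _ h4 => hlam T (card_pos.mp (by omega))⟩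

lemma lam_isD (hn : ∀ i, (n i).Prime ∧ n i % 2 = 1) {T : Finset ι} {L : (cyc n).Pt → ℤ}
    (hL : Lam T (univ \ T) L) : (cyc n).IsD univ L := by
  change (cyc n).IsD0 univ L
  intro i _ x _ hx
  have hb : (cyc n).β i = 1 := beta_one (by have := (hn i).2; omega)
  rw [hb, Dat.act_one]
  by_cases hi : i ∈ T
  · rw [hL.z0 i hi x hx]
    have h0 : ∀ y : (cyc n).Pt, y i = none → L y = 0 := by
      intro y hy
      by_contra h
      exact (hL.sp y h).1 i hi hy
    rw [h0 _ hx, h0 _ (Dat.act_apply_none hx), sub_zero]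
  · exact hL.rel i (mem_sdiff.mpr ⟨mem_univ i, hi⟩) x hx

lemma lam_ty {T : Finset ι} (hT : Even T.card) {L : (cyc n).Pt → ℤ}
    (hL : Lam T (univ \ T) L) : (cyc n).Ty 1 univ L := by
  intro x _
  rw [Dat.T_triv (Dat.triv_int _), hL.odd, hT.neg_one_pow, one_mul, one_smul]

lemma fam_spec (hn : ∀ i, (n i).Prime ∧ n i % 2 = 1) {lam : Finset ι → (cyc n).Pt → ℤ}
    (hlam : Fam n lam) : ∀ T, Even T.card → 4 ≤ T.card → (cyc n).IsD univ (lam T) ∧
      (cyc n).Ty 1 univ (lam T) ∧ (cyc n).EqS T (lam T) (box T) ∧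
      ∀ T', T' ≠ T → T'.card ≤ T.card → (cyc n).EqS T' (lam T) 0 := by
  intro T h2 h4
  have hL := hlam T h2 h4
  refine ⟨lam_isD hn hL, lam_ty h2 hL, fun x hx => hL.val x hx, fun T' hne hcard x hx => ?_⟩
  by_contra h
  apply hne
  have h3 := hL.sp x h
  have h5 : T ⊆ T' := by
    intro i hi
    by_contra h6
    exact h3.1 i hi (hx i h6)
  exact (eq_of_subset_of_card_le h5 hcard).symm

/-! ### Counting -/

lemma act_supp_eq (D : Dat ι) (x : D.Pt) : ∃ w : D.GG, x = D.act w (one (univ.filter (fun i => x i ≠ none))) := by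
  refine ⟨fun i => (x i).getD 1, ?_⟩
  funext i
  cases hx : x i with
  | none => exact (one_apply_not (by simp [hx]) _).symm
  | some u =>
    rw [one_apply_mem (by simp [hx]), hx, Option.getD_some, mul_one]

lemma sum_orbit {D : Dat ι} (f : D.Pt → ℤ) (x : D.Pt) :
    ∑ v : D.GG, |f (D.act v x)| = S1 (univ.filter (fun i => x i ≠ none)) f := by
  obtain ⟨w, hw⟩ := act_supp_eq D x
  conv_lhs => rw [hw]
  unfold S1
  rw [← Equiv.sum_comp (Equiv.mulRight w) (fun b => |f (D.act b (one _))|)]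
  refine sum_congr rfl fun b _ => ?_
  rw [Dat.act_act]
  rfl

lemma wg_cyc (hn : ∀ i, (n i).Prime ∧ n i % 2 = 1) (R : Finset ι) :
    wg (cyc n) R = ∏ i ∈ R, ((n i - 1 : ℕ) : ℤ) := by
  unfold wg
  refine prod_congr rfl fun i _ => ?_
  have : Fact (n i).Prime := ⟨(hn i).1⟩
  have h := ZMod.card_units (n i)
  exact_mod_cast h

/-- The number of translates where a box distribution does not vanish. -/
lemma count_lt (hn : ∀ i, (n i).Prime ∧ n i % 2 = 1)
    (hco : Pairwise (fun i j => (n i).Coprime (n j))) {C : ℕ}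
    (hC : ∀ T : Finset ι, T.card = 4 → 16 * C < ∏ i ∈ T, (n i - 1))
    {T : Finset ι} (h4 : 4 ≤ T.card) {L : (cyc n).Pt → ℤ} (hL : Lam T (univ \ T) L)
    (x : (cyc n).Pt) : (C : ℤ) * ∑ v : (cyc n).GG, |L ((cyc n).act v x)| < MM (cyc n) := by
  have hM := MM_pos (cyc n)
  rw [sum_orbit]
  set R : Finset ι := univ.filter (fun i => x i ≠ none) with hR
  by_cases hTR : T ⊆ R
  · obtain ⟨J, hJ⟩ : ∃ J, J = R \ T := ⟨_, rfl⟩
    have hRJ : T ∪ J = R := by rw [hJ]; exact union_sdiff_of_subset hTR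
    have hJQ : J ⊆ univ \ T := by rw [hJ]; exact sdiff_subset_sdiff (subset_univ _) le_rfl
    have hcard : T.card + J.card = R.card := by
      rw [hJ, add_comm]; exact card_sdiff_add_card_eq_card hTR
    have h1 := hL.norm J hJQ
    rw [hRJ, hcard] at h1
    have hinj : Function.Injective n := by
      intro i j hij
      by_contra hne
      have h2 : (n i).Coprime (n j) := hco hne
      rw [hij, Nat.coprime_self] at h2
      have := (hn j).1.one_lt
      omega
    have h2 := Pool.Agent.N353.TB.prime_box C (R.map ⟨n, hinj⟩) (by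
      intro p hp
      obtain ⟨i, _, rfl⟩ := mem_map.mp hp
      exact hn i) (by rw [card_map]; omega) (by
      intro T' hT' hc
      obtain ⟨T'', hT'', rfl⟩ := subset_map_iff.mp hT'
      rw [card_map] at hc
      rw [prod_map]
      exact hC T'' hc)
    rw [card_map, prod_map] at h2
    have h3 : (C : ℤ) * (2 ^ R.card * ((R.card - 1).factorial : ℤ)) < 6 * wg (cyc n) R := by
      rw [wg_cyc hn]
      have h2' : ((C * (2 ^ R.card * (R.card - 1).factorial) : ℕ) : ℤ) <
        ((6 * ∏ i ∈ R, (n i - 1) : ℕ) : ℤ) := by exact_mod_cast h2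
      rw [Nat.cast_mul, Nat.cast_mul, Nat.cast_mul, Nat.cast_pow, Nat.cast_prod] at h2'
      exact h2'
    have hw := wg_pos (D := cyc n) R
    have h6 : (6 : ℤ) ≤ ((T.card - 1).factorial : ℤ) := by
      have : (3 : ℕ).factorial ≤ (T.card - 1).factorial := Nat.factorial_le (by omega)
      have h7 : (3 : ℕ).factorial = 6 := rfl
      rw [h7] at this
      exact_mod_cast this
    have hf : 0 < ((T.card - 1).factorial : ℤ) := by linarith
    have hwf : 0 < wg (cyc n) R * ((T.card - 1).factorial : ℤ) := mul_pos hw hf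
    refine lt_of_mul_lt_mul_right ?_ hwf.le
    calc (C : ℤ) * S1 R L * (wg (cyc n) R * ((T.card - 1).factorial : ℤ))
        = C * (S1 R L * wg (cyc n) R * ((T.card - 1).factorial : ℤ)) := by ring
      _ ≤ C * (MM (cyc n) * (2 ^ R.card * ((R.card - 1).factorial : ℤ))) :=
        mul_le_mul_of_nonneg_left h1 (by positivity)
      _ = MM (cyc n) * (C * (2 ^ R.card * ((R.card - 1).factorial : ℤ))) := by ring
      _ < MM (cyc n) * (6 * wg (cyc n) R) := mul_lt_mul_of_pos_left h3 hM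
      _ ≤ MM (cyc n) * (((T.card - 1).factorial : ℤ) * wg (cyc n) R) :=
        mul_le_mul_of_nonneg_left (mul_le_mul_of_nonneg_right h6 hw.le) hM.le
      _ = MM (cyc n) * (wg (cyc n) R * ((T.card - 1).factorial : ℤ)) := by ring
  · have h0 : S1 R L = 0 := by
      refine sum_eq_zero fun b _ => ?_
      rw [abs_eq_zero]
      by_contra h
      apply hTR
      intro i hi
      by_contra hiR
      exact (hL.sp _ h).1 i hi (one_apply_not hiR b)
    rw [h0, mul_zero]
    exact hM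

/-! ### Distributions modulo 2 -/

lemma oddDist_unit {m : ℕ} [NeZero m] {F : ZMod m → ZMod 2} (hF : OddDist F) (u : (ZMod m)ˣ) :
    OddDist (fun a => F ((u : ZMod m) * a)) where
  neg := fun a => by rw [mul_neg, hF.neg]
  half := fun a ha => by
    apply hF.half
    rw [← mul_add, ha, mul_zero]
  dist := fun p d hp hpd a => by
    have hpm : p ∣ m := Dvd.intro _ hpd
    have hcop : p.Coprime (u : ZMod m).val :=
      (Nat.Coprime.coprime_dvd_right hpm (ZMod.val_coe_unit_coprime u)).symm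
    have hper : ∀ i : ℕ, ((i % p : ℕ) : ZMod m) * (d : ZMod m) = (i : ZMod m) * (d : ZMod m) := by
      intro i
      have h1 : ((i % p * d : ℕ) : ZMod m) = ((i * d : ℕ) : ZMod m) := by
        rw [ZMod.natCast_eq_natCast_iff]
        have h2 : i % p * d ≡ i * d [MOD p * d] := Nat.ModEq.mul_right' d (Nat.mod_modEq i p)
        rwa [hpd] at h2
      push_cast at h1
      exact h1
    have h1 := Pool.Agent.N433.TB.perm hp.pos hcop
      (fun i => F ((u : ZMod m) * a + (i : ZMod m) * (d : ZMod m))) (fun i => by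
        beta_reduce
        rw [hper])
    have h2 := hF.dist p d hp hpd ((u : ZMod m) * a)
    have e : (u : ZMod m) * ((p : ZMod m) * a) = (p : ZMod m) * ((u : ZMod m) * a) := by ring
    rw [e, ← h2, ← h1]
    refine sum_congr rfl fun i _ => ?_
    congr 1
    push_cast
    rw [ZMod.natCast_zmod_val]
    ring

/-- the groups of units -/
lemma exists_units (E : (∀ i, ZMod (n i)) ≃+* ZMod N) :
    ∃ e : (ZMod N)ˣ ≃ (cyc n).GG, ∀ (u : (ZMod N)ˣ) (b : ZMod N), pt (E.symm ((u : ZMod N) * b)) =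
      (cyc n).act (e u) (pt (E.symm b)) := by
  refine ⟨(Units.mapEquiv E.symm.toMulEquiv).toEquiv.trans MulEquiv.piUnits.toEquiv, ?_⟩
  intro u b
  refine Pool.Agent.N31.TB.pt_unit_mul _ fun i => ?_
  rw [map_mul]
  rfl

/-- Relations with few entries have even box parities. -/
theorem small_even (hn : ∀ i, (n i).Prime ∧ n i % 2 = 1)
    (hco : Pairwise (fun i j => (n i).Coprime (n j)))
    (hN : ∏ i, n i = N) (E : (∀ i, ZMod (n i)) ≃+* ZMod N) {C : ℕ}
    (hC : ∀ T : Finset ι, T.card = 4 → 16 * C < ∏ i ∈ T, (n i - 1))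
    {T : Finset ι} (h2 : Even T.card) (h4 : 4 ≤ T.card) {L : (cyc n).Pt → ℤ}
    (hL : Lam T (univ \ T) L) {k m : ℕ} [NeZero m] (hk : k * N = m)
    (hpr : ∀ p, p.Prime → p ∣ m → p ∣ N) (hodd : m % 2 = 1) :
    ∃ F : ZMod m → ZMod 2, OddDist F ∧
      (∀ b : ZMod N, F (iota k b) = ((L (pt (E.symm b)) : ℤ) : ZMod 2)) ∧
      ∀ y : ZMod m → ℤ, Rel y → ∑ a, |y a| ≤ C → ∑ a, y a • F a = 0 := by
  classical
  have hD := lam_isD hn hL
  have hty := lam_ty h2 hL
  have h0 : L (fun _ => none) = 0 := by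
    by_contra h
    obtain ⟨i, hi⟩ := card_pos.mp (by omega : 0 < T.card)
    exact (hL.sp _ h).1 i hi rfl
  obtain ⟨f, hf⟩ : ∃ f : ZMod N → ZMod 2, f = fun b => ((L (pt (E.symm b)) : ℤ) : ZMod 2) :=
    ⟨_, rfl⟩
  have hfD : OddDist f := by
    rw [hf]; exact Pool.Agent.N31.TB.oddDist_two hn hco hN E hD hty h0
  obtain ⟨F, hF, hFf, hFb⟩ := Pool.Agent.N433.TB.pull_back N f hfD k m hk hodd hpr
  refine ⟨F, hF, fun b => by rw [hFf, hf], ?_⟩
  intro y hy hyC
  have hred : Red m N k := red_exists k m N k rfl hk hpr (fun h => by omega)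
  -- invariance
  have hinv : ∀ u : (ZMod m)ˣ, ∑ a, y a • F ((u : ZMod m) * a) = ∑ a, y a • F a := by
    intro u
    have hpair : OddDist (fun a : ZMod m => (F a, F ((u : ZMod m) * a))) := by
      have hu := oddDist_unit hF u
      exact
        { neg := fun a => Prod.ext (hF.neg a) (hu.neg a)
          half := fun a ha => Prod.ext (hF.half a ha) (hu.half a ha)
          dist := fun p e hp hpe a => by
            refine Prod.ext ?_ ?_
            · rw [Prod.fst_sum]; exact hF.dist p e hp hpe a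
            · rw [Prod.snd_sum]; exact hu.dist p e hp hpe a }
    obtain ⟨x0, hx0, he⟩ := hred _ _ hpair y hy
    have he1 := congrArg Prod.fst he
    have he2 := congrArg Prod.snd he
    rw [Prod.fst_sum, Prod.fst_sum] at he1
    rw [Prod.snd_sum, Prod.snd_sum] at he2
    simp only [Prod.smul_fst, hFf] at he1
    simp only [Prod.smul_snd, unit_iota hk, hFf] at he2
    rw [he1, he2, hf]
    beta_reduce
    have h3 := Pool.Agent.N31.TB.galois_two hn hco hN E hD hty x0 hx0
      (ZMod.unitsMap (Dvd.intro_left k hk : N ∣ m) u)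
    have h5 : ∀ g : ZMod N → ℤ, ∑ b, x0 b • ((g b : ℤ) : ZMod 2) =
        ((∑ b, x0 b * g b : ℤ) : ZMod 2) := by
      intro g
      push_cast
      exact sum_congr rfl fun b _ => by rw [zsmul_eq_mul]
    rw [h5 (fun b => L (pt (E.symm (((ZMod.unitsMap (Dvd.intro_left k hk : N ∣ m) u :
      (ZMod N)ˣ) : ZMod N) * b)))), h5 (fun b => L (pt (E.symm b))), ← sub_eq_zero]
    rw [← Int.cast_sub]
    exact (ZMod.intCast_zmod_eq_zero_iff_dvd _ 2).mpr h3
  by_contra hne
  -- counting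
  choose bb hbb using hFb
  obtain ⟨e, he⟩ := exists_units E
  have hNU : (Fintype.card (ZMod N)ˣ : ℤ) = MM (cyc n) := by
    unfold MM
    exact_mod_cast Fintype.card_congr e
  let Φ : ZMod N → (ZMod N)ˣ → ℤ := fun b v => if f ((v : ZMod N) * b) = 0 then 0 else 1
  have hΦ : ∀ b, (C : ℤ) * ∑ v, Φ b v < MM (cyc n) := by
    intro b
    refine lt_of_le_of_lt ?_ (count_lt hn hco hC h4 hL (pt (E.symm b)))
    refine mul_le_mul_of_nonneg_left ?_ (by positivity)
    rw [← Equiv.sum_comp e (fun v => |L ((cyc n).act v (pt (E.symm b)))|)]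
    refine sum_le_sum fun v _ => ?_
    rw [← he]
    change (if f ((v : ZMod N) * b) = 0 then (0 : ℤ) else 1) ≤ _
    split_ifs with h
    · exact abs_nonneg _
    · rw [hf] at h
      beta_reduce at h
      have h1 : L (pt (E.symm ((v : ZMod N) * b))) ≠ 0 := by
        intro h2
        apply h
        rw [h2, Int.cast_zero]
      exact Int.one_le_abs h1
  let π : (ZMod m)ˣ →* (ZMod N)ˣ := ZMod.unitsMap (Dvd.intro_left k hk : N ∣ m)
  have hπ : Function.Surjective π := ZMod.unitsMap_surjective (Dvd.intro_left k hk : N ∣ m)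
  have hdouble : ∀ g : (ZMod N)ˣ → ℤ, (Fintype.card (ZMod N)ˣ : ℤ) * ∑ u, g (π u) =
      (Fintype.card (ZMod m)ˣ : ℤ) * ∑ v, g v := by
    intro g
    have e1 : ∑ u : (ZMod m)ˣ, ∑ v : (ZMod N)ˣ, g (π u * v) =
        (Fintype.card (ZMod m)ˣ : ℤ) * ∑ v, g v := by
      have : ∀ u : (ZMod m)ˣ, ∑ v : (ZMod N)ˣ, g (π u * v) = ∑ v, g v := fun u =>
        Fintype.sum_equiv (Equiv.mulLeft (π u)) _ _ (fun v => rfl)
      simp only [this]
      rw [sum_const, card_univ, nsmul_eq_mul]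
    have e2 : ∑ u : (ZMod m)ˣ, ∑ v : (ZMod N)ˣ, g (π u * v) =
        (Fintype.card (ZMod N)ˣ : ℤ) * ∑ u, g (π u) := by
      rw [sum_comm]
      have : ∀ v : (ZMod N)ˣ, ∑ u : (ZMod m)ˣ, g (π u * v) = ∑ u, g (π u) := by
        intro v
        obtain ⟨w, rfl⟩ := hπ v
        simp only [← map_mul]
        exact Fintype.sum_equiv (Equiv.mulRight w) _ _ (fun v => rfl)
      simp only [this]
      rw [sum_const, card_univ, nsmul_eq_mul]
    rw [← e1, ← e2]
  -- every translate sees an entry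
  have hsee : ∀ u : (ZMod m)ˣ, (1 : ℤ) ≤ ∑ a, |y a| * Φ (bb a) (π u) := by
    intro u
    have h1 : ∑ a, y a • F ((u : ZMod m) * a) ≠ 0 := by rw [hinv u]; exact hne
    obtain ⟨a, _, ha⟩ := exists_ne_zero_of_sum_ne_zero h1
    have ha1 : y a ≠ 0 := by rintro h; rw [h, zero_smul] at ha; exact ha rfl
    have ha2 : F ((u : ZMod m) * a) ≠ 0 := by rintro h; rw [h, smul_zero] at ha; exact ha rfl
    have h3 : Φ (bb a) (π u) = 1 := by
      change (if f (((π u : (ZMod N)ˣ) : ZMod N) * bb a) = 0 then (0 : ℤ) else 1) = 1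
      rw [if_neg]
      rw [← hbb]; exact ha2
    have h5 : ∀ a' ∈ (univ : Finset (ZMod m)), 0 ≤ |y a'| * Φ (bb a') (π u) := by
      intro a' _
      refine mul_nonneg (abs_nonneg _) ?_
      change 0 ≤ (if f (((π u : (ZMod N)ˣ) : ZMod N) * bb a') = 0 then (0 : ℤ) else 1)
      split_ifs <;> norm_num
    have h6 := single_le_sum h5 (mem_univ a)
    rw [h3, mul_one] at h6
    exact (Int.one_le_abs ha1).trans h6
  have hM := MM_pos (cyc n)
  have hUm : 0 < (Fintype.card (ZMod m)ˣ : ℤ) := by exact_mod_cast Fintype.card_pos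
  have h7 : (Fintype.card (ZMod m)ˣ : ℤ) ≤ ∑ a, |y a| * ∑ u : (ZMod m)ˣ, Φ (bb a) (π u) := by
    have h8 : ∑ u : (ZMod m)ˣ, (1 : ℤ) ≤ ∑ u : (ZMod m)ˣ, ∑ a, |y a| * Φ (bb a) (π u) :=
      sum_le_sum fun u _ => hsee u
    rw [sum_const, card_univ, nsmul_eq_mul, mul_one, sum_comm] at h8
    refine h8.trans (le_of_eq ?_)
    exact sum_congr rfl fun a _ => by rw [mul_sum]
  have h9 : MM (cyc n) ≤ ∑ a, |y a| * ∑ v, Φ (bb a) v := by
    refine le_of_mul_le_mul_left ?_ hUm
    calc (Fintype.card (ZMod m)ˣ : ℤ) * MM (cyc n)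
        = MM (cyc n) * (Fintype.card (ZMod m)ˣ : ℤ) := mul_comm _ _
      _ ≤ MM (cyc n) * ∑ a, |y a| * ∑ u : (ZMod m)ˣ, Φ (bb a) (π u) :=
        mul_le_mul_of_nonneg_left h7 hM.le
      _ = ∑ a, |y a| * ((Fintype.card (ZMod N)ˣ : ℤ) * ∑ u : (ZMod m)ˣ, Φ (bb a) (π u)) := by
        rw [mul_sum, hNU]
        exact sum_congr rfl fun a _ => by ring
      _ = ∑ a, |y a| * ((Fintype.card (ZMod m)ˣ : ℤ) * ∑ v, Φ (bb a) v) :=
        sum_congr rfl fun a _ => by rw [hdouble]
      _ = (Fintype.card (ZMod m)ˣ : ℤ) * ∑ a, |y a| * ∑ v, Φ (bb a) v := by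
        rw [mul_sum]
        exact sum_congr rfl fun a _ => by ring
  have h10 : (C : ℤ) * MM (cyc n) ≤ ∑ a, |y a| * (MM (cyc n) - 1) := by
    calc (C : ℤ) * MM (cyc n) ≤ C * ∑ a, |y a| * ∑ v, Φ (bb a) v :=
          mul_le_mul_of_nonneg_left h9 (by positivity)
      _ = ∑ a, |y a| * (C * ∑ v, Φ (bb a) v) := by
        rw [mul_sum]
        exact sum_congr rfl fun a _ => by ring
      _ ≤ ∑ a, |y a| * (MM (cyc n) - 1) := by
        refine sum_le_sum fun a _ => mul_le_mul_of_nonneg_left ?_ (abs_nonneg _)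
        have := hΦ (bb a)
        omega
  rw [← sum_mul] at h10
  have h11 : (∑ a, |y a|) * (MM (cyc n) - 1) ≤ C * (MM (cyc n) - 1) :=
    mul_le_mul_of_nonneg_right hyC (by omega)
  have hC0 : (C : ℤ) ≤ 0 := by nlinarith
  have hC1 : ∑ a, |y a| = 0 := le_antisymm (hyC.trans hC0) (sum_nonneg fun _ _ => abs_nonneg _)
  have h12 := hsee 1
  have h13 : ∀ a ∈ (univ : Finset (ZMod m)), |y a| = 0 :=
    (sum_eq_zero_iff_of_nonneg (fun _ _ => abs_nonneg _)).mp hC1
  rw [sum_eq_zero (fun a ha => by rw [h13 a ha, zero_mul])] at h12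
  norm_num at h12

end

end Pool.Agent.N198.TB
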