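import Pool.Agent.N198.TB.Odd
import Pool.Agent.N198.TP.Full

/-!
Rational classes with few entries of the degrees congruent to 2 modulo 4.
-/

set_option linter.unusedSectionVars false

namespace Pool.Agent.N198.TB

open Finset Pool.Agent.H916R2 Pool.Agent.N992 Pool.Agent.N993

/-- Counting. -/
theorem count_zero {m N : ℕ} [NeZero m] [NeZero N] (hd : N ∣ m) {w C : ℕ} (hw : 0 < w)
    (F : ZMod m → ZMod 2) (y : ZMod m → ℤ) (Φ : ZMod m → (ZMod N)ˣ → ℤ)
    (hinv : ∀ u : (ZMod m)ˣ, ∑ a, y a • F ((u : ZMod m) * a) = ∑ a, y a • F a)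
    (h0 : ∀ a v, 0 ≤ Φ a v)
    (h1 : ∀ a (u : (ZMod m)ˣ), F ((u : ZMod m) * a) ≠ 0 → 1 ≤ Φ a (ZMod.unitsMap hd u))
    (hC : ∀ a, (C : ℤ) * ∑ v, Φ a v ≤ w * ((Fintype.card (ZMod N)ˣ : ℤ) - 1))
    (hyC : (w : ℤ) * ∑ a, |y a| ≤ C) : ∑ a, y a • F a = 0 := by
  classical
  by_contra hne
  let π : (ZMod m)ˣ →* (ZMod N)ˣ := ZMod.unitsMap hd
  have hπ : Function.Surjective π := ZMod.unitsMap_surjective hd
  obtain ⟨M, hM⟩ : ∃ M : ℤ, M = (Fintype.card (ZMod N)ˣ : ℤ) := ⟨_, rfl⟩
  rw [← hM] at hC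
  have hM0 : 0 < M := by rw [hM]; exact_mod_cast Fintype.card_pos
  have hdouble : ∀ g : (ZMod N)ˣ → ℤ, M * ∑ u, g (π u) =
      (Fintype.card (ZMod m)ˣ : ℤ) * ∑ v, g v := by
    intro g
    have e1 : ∑ u : (ZMod m)ˣ, ∑ v : (ZMod N)ˣ, g (π u * v) =
        (Fintype.card (ZMod m)ˣ : ℤ) * ∑ v, g v := by
      have : ∀ u : (ZMod m)ˣ, ∑ v : (ZMod N)ˣ, g (π u * v) = ∑ v, g v := fun u =>
        Fintype.sum_equiv (Equiv.mulLeft (π u)) _ _ (fun v => rfl)
      simp only [this]
      rw [sum_const, card_univ, nsmul_eq_mul]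
    have e2 : ∑ u : (ZMod m)ˣ, ∑ v : (ZMod N)ˣ, g (π u * v) = M * ∑ u, g (π u) := by
      rw [sum_comm]
      have : ∀ v : (ZMod N)ˣ, ∑ u : (ZMod m)ˣ, g (π u * v) = ∑ u, g (π u) := by
        intro v
        obtain ⟨w, rfl⟩ := hπ v
        simp only [← map_mul]
        exact Fintype.sum_equiv (Equiv.mulRight w) _ _ (fun v => rfl)
      simp only [this]
      rw [sum_const, card_univ, nsmul_eq_mul, hM]
    rw [← e1, ← e2]
  have hsee : ∀ u : (ZMod m)ˣ, (1 : ℤ) ≤ ∑ a, |y a| * Φ a (π u) := by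
    intro u
    have h2 : ∑ a, y a • F ((u : ZMod m) * a) ≠ 0 := by rw [hinv u]; exact hne
    obtain ⟨a, _, ha⟩ := exists_ne_zero_of_sum_ne_zero h2
    have ha1 : y a ≠ 0 := by rintro h; rw [h, zero_smul] at ha; exact ha rfl
    have ha2 : F ((u : ZMod m) * a) ≠ 0 := by rintro h; rw [h, smul_zero] at ha; exact ha rfl
    have h5 : ∀ a' ∈ (univ : Finset (ZMod m)), 0 ≤ |y a'| * Φ a' (π u) :=
      fun a' _ => mul_nonneg (abs_nonneg _) (h0 _ _)
    have h6 := single_le_sum h5 (mem_univ a)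
    have h7 : (1 : ℤ) ≤ |y a| * Φ a (π u) := by
      have h8 := Int.one_le_abs ha1
      have h9 := h1 a u ha2
      calc (1 : ℤ) = 1 * 1 := (one_mul 1).symm
        _ ≤ _ := mul_le_mul h8 h9 (by norm_num) (abs_nonneg _)
    exact h7.trans h6
  have hUm : 0 < (Fintype.card (ZMod m)ˣ : ℤ) := by exact_mod_cast Fintype.card_pos
  have h7 : (Fintype.card (ZMod m)ˣ : ℤ) ≤ ∑ a, |y a| * ∑ u : (ZMod m)ˣ, Φ a (π u) := by
    have h8 : ∑ u : (ZMod m)ˣ, (1 : ℤ) ≤ ∑ u : (ZMod m)ˣ, ∑ a, |y a| * Φ a (π u) :=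
      sum_le_sum fun u _ => hsee u
    rw [sum_const, card_univ, nsmul_eq_mul, mul_one, sum_comm] at h8
    refine h8.trans (le_of_eq ?_)
    exact sum_congr rfl fun a _ => by rw [mul_sum]
  have h9 : M ≤ ∑ a, |y a| * ∑ v, Φ a v := by
    refine le_of_mul_le_mul_left ?_ hUm
    calc (Fintype.card (ZMod m)ˣ : ℤ) * M
        = M * (Fintype.card (ZMod m)ˣ : ℤ) := mul_comm _ _
      _ ≤ M * ∑ a, |y a| * ∑ u : (ZMod m)ˣ, Φ a (π u) :=
        mul_le_mul_of_nonneg_left h7 hM0.le
      _ = ∑ a, |y a| * (M * ∑ u : (ZMod m)ˣ, Φ a (π u)) := by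
        rw [mul_sum]
        exact sum_congr rfl fun a _ => by ring
      _ = ∑ a, |y a| * ((Fintype.card (ZMod m)ˣ : ℤ) * ∑ v, Φ a v) :=
        sum_congr rfl fun a _ => by rw [hdouble]
      _ = (Fintype.card (ZMod m)ˣ : ℤ) * ∑ a, |y a| * ∑ v, Φ a v := by
        rw [mul_sum]
        exact sum_congr rfl fun a _ => by ring
  have h10 : (C : ℤ) * M ≤ ∑ a, |y a| * (w * (M - 1)) := by
    calc (C : ℤ) * M ≤ C * ∑ a, |y a| * ∑ v, Φ a v :=
          mul_le_mul_of_nonneg_left h9 (by positivity)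
      _ = ∑ a, |y a| * (C * ∑ v, Φ a v) := by
        rw [mul_sum]
        exact sum_congr rfl fun a _ => by ring
      _ ≤ ∑ a, |y a| * (w * (M - 1)) :=
        sum_le_sum fun a _ => mul_le_mul_of_nonneg_left (hC a) (abs_nonneg _)
  rw [← sum_mul] at h10
  have h11 : (∑ a, |y a|) * (w * (M - 1)) ≤ C * (M - 1) := by
    have := mul_le_mul_of_nonneg_right hyC (show (0 : ℤ) ≤ M - 1 by omega)
    calc _ = (w : ℤ) * (∑ a, |y a|) * (M - 1) := by ring
      _ ≤ _ := this
  have hC0 : (C : ℤ) ≤ 0 := by nlinarith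
  have hC1 : ∑ a, |y a| = 0 := by
    have h12 : (w : ℤ) * ∑ a, |y a| ≤ 0 := hyC.trans hC0
    have h13 : 0 ≤ ∑ a, |y a| := sum_nonneg fun _ _ => abs_nonneg _
    have hw' : (0 : ℤ) < w := by exact_mod_cast hw
    nlinarith
  have h12 := hsee 1
  have h13 : ∀ a ∈ (univ : Finset (ZMod m)), |y a| = 0 :=
    (sum_eq_zero_iff_of_nonneg (fun _ _ => abs_nonneg _)).mp hC1
  rw [sum_eq_zero (fun a ha => by rw [h13 a ha, zero_mul])] at h12
  norm_num at h12

/-- The distribution of the double level. -/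
noncomputable def dbl {m' : ℕ} (F' : ZMod m' → ZMod 2) (n : ℕ) : ZMod 2 :=
  if 2 ∣ n then F' ((n / 2 : ℕ) : ZMod m') else
    F' ((n : ℕ) : ZMod m') + F' ((((m' + 1) / 2) * n : ℕ) : ZMod m')

lemma half_mul {m' : ℕ} (hodd : m' % 2 = 1) (n : ℕ) :
    ((((m' + 1) / 2) * (2 * n) : ℕ) : ZMod m') = (n : ZMod m') := by
  have h1 : (m' + 1) / 2 * (2 * n) = (m' + 1) * n := by
    have : 2 * ((m' + 1) / 2) = m' + 1 := by omega
    calc (m' + 1) / 2 * (2 * n) = (2 * ((m' + 1) / 2)) * n := by ring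
      _ = _ := by rw [this]
  rw [h1]
  push_cast
  rw [ZMod.natCast_self, zero_add, one_mul]

lemma dbl_add {m' : ℕ} (F' : ZMod m' → ZMod 2) (n j : ℕ) :
    dbl F' (n + 2 * m' * j) = dbl F' n := by
  unfold dbl
  have e1 : 2 ∣ n + 2 * m' * j ↔ 2 ∣ n := by
    rw [mul_assoc]
    omega
  have e2 : (n + 2 * m' * j) / 2 = n / 2 + m' * j := by
    rw [mul_assoc]; omega
  by_cases h : 2 ∣ n
  · rw [if_pos h, if_pos (e1.mpr h), e2]
    push_cast
    rw [ZMod.natCast_self, zero_mul, add_zero]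
  · rw [if_neg h, if_neg (fun h' => h (e1.mp h'))]
    congr 1
    · congr 1
      push_cast
      rw [ZMod.natCast_self]; ring
    · congr 1
      push_cast
      rw [ZMod.natCast_self]; ring

lemma dbl_congr {m' : ℕ} (F' : ZMod m' → ZMod 2) {n n' : ℕ}
    (h : (n : ZMod (2 * m')) = (n' : ZMod (2 * m'))) : dbl F' n = dbl F' n' := by
  rw [ZMod.natCast_eq_natCast_iff] at h
  rcases le_total n n' with hle | hle
  · obtain ⟨j, hj⟩ := (Nat.modEq_iff_dvd' hle).mp h
    have : n' = n + 2 * m' * j := by omega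
    rw [this, dbl_add]
  · obtain ⟨j, hj⟩ := (Nat.modEq_iff_dvd' hle).mp h.symm
    have : n = n' + 2 * m' * j := by omega
    rw [this, dbl_add]

/-- The pull back to the double level. -/
theorem pull_two {m' : ℕ} [NeZero m'] [NeZero (2 * m')] (hodd : m' % 2 = 1) {F' : ZMod m' → ZMod 2}
    (hF : OddDist F') : ∃ F : ZMod (2 * m') → ZMod 2, OddDist F ∧
      (∀ b : ZMod m', F (iota 2 b) = F' b) ∧
      ∀ a : ZMod (2 * m'), ∃ b1 b2 : ZMod m', ∀ u : (ZMod (2 * m'))ˣ, F ((u : ZMod (2 * m')) * a) =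
        F' (((ZMod.unitsMap (Dvd.intro_left 2 rfl : m' ∣ 2 * m') u : (ZMod m')ˣ) : ZMod m') * b1) +
        F' (((ZMod.unitsMap (Dvd.intro_left 2 rfl : m' ∣ 2 * m') u : (ZMod m')ˣ) : ZMod m') * b2) := by
  classical
  set h : ℕ := (m' + 1) / 2 with hh
  have hFn : ∀ n : ℕ, dbl F' (((n : ZMod (2 * m')).val)) = dbl F' n := fun n =>
    dbl_congr F' (by rw [ZMod.natCast_zmod_val])
  set F : ZMod (2 * m') → ZMod 2 := fun a => dbl F' a.val with hFdef
  have hFc : ∀ n : ℕ, F (n : ZMod (2 * m')) = dbl F' n := hFn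
  have he : ∀ n : ℕ, dbl F' (2 * n) = F' (n : ZMod m') := by
    intro n
    unfold dbl
    rw [if_pos (Dvd.intro n rfl), Nat.mul_div_cancel_left n (by norm_num)]
  have ho : ∀ n : ℕ, ¬ 2 ∣ n → dbl F' n = F' (n : ZMod m') + F' ((h * n : ℕ) : ZMod m') := by
    intro n hn
    unfold dbl
    rw [if_neg hn]
  have h00 : F' 0 = 0 := hF.half 0 (by rw [add_zero])
  have hneg : ∀ z : ZMod m', F' (-z) = F' z := fun z => by rw [hF.neg, CharTwo.neg_eq]
  refine ⟨F, ⟨?_, ?_, ?_⟩, ?_, ?_⟩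
  · intro a
    have h1 : -a = ((2 * m' - a.val : ℕ) : ZMod (2 * m')) := by
      rw [Nat.cast_sub (ZMod.val_lt a).le, ZMod.natCast_self, zero_sub, ZMod.natCast_zmod_val]
    have h2 : a = ((a.val : ℕ) : ZMod (2 * m')) := (ZMod.natCast_zmod_val a).symm
    have hlt := (ZMod.val_lt a).le
    rw [CharTwo.neg_eq (F a), h1, hFc]
    change _ = dbl F' a.val
    obtain ⟨n, hn⟩ : ∃ n, n = a.val := ⟨_, rfl⟩
    rw [← hn] at hlt ⊢
    rcases Nat.even_or_odd' n with ⟨c, hc | hc⟩
    · have e1 : 2 * m' - n = 2 * (m' - c) := by omega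
      rw [e1, hc, he, he, Nat.cast_sub (by omega), ZMod.natCast_self, zero_sub, hneg]
    · rw [ho n (by omega), ho (2 * m' - n) (by omega)]
      have e1 : ((2 * m' - n : ℕ) : ZMod m') = - (n : ZMod m') := by
        rw [Nat.cast_sub hlt]
        push_cast
        rw [ZMod.natCast_self]; ring
      have e2 : ((h * (2 * m' - n) : ℕ) : ZMod m') = - ((h * n : ℕ) : ZMod m') := by
        rw [Nat.cast_mul, e1]
        push_cast; ring
      rw [e1, e2, hneg, hneg]
  · intro a ha
    change dbl F' a.val = 0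
    have h1 : ((2 * a.val : ℕ) : ZMod (2 * m')) = 0 := by
      rw [Nat.cast_mul, ZMod.natCast_zmod_val]
      exact (two_mul a).trans ha
    rw [ZMod.natCast_eq_zero_iff] at h1
    have h2 : m' ∣ a.val := Nat.dvd_of_mul_dvd_mul_left (by norm_num) h1
    obtain ⟨j, hj⟩ := h2
    rw [hj]
    rcases Nat.even_or_odd' j with ⟨c, hc | hc⟩
    · have e1 : m' * j = 2 * (m' * c) := by rw [hc]; ring
      rw [e1, he]
      push_cast
      rw [ZMod.natCast_self, zero_mul, h00]
    · rw [ho (m' * j) (by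
        intro h3
        rcases (Nat.Prime.dvd_mul Nat.prime_two).mp h3 with h4 | h4 <;> omega)]
      push_cast
      rw [ZMod.natCast_self, zero_mul, mul_zero, h00, add_zero]
  · intro p d hp hpd a
    obtain ⟨n, hn⟩ : ∃ n, n = a.val := ⟨_, rfl⟩
    have ha : a = (n : ZMod (2 * m')) := by rw [hn, ZMod.natCast_zmod_val]
    have hL : ∀ i : ℕ, F (a + (i : ZMod (2 * m')) * (d : ZMod (2 * m'))) = dbl F' (n + i * d) := by
      intro i
      rw [← hFc, ha]
      push_cast; rfl
    have hR : F ((p : ZMod (2 * m')) * a) = dbl F' (p * n) := by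
      rw [← hFc, ha]
      push_cast; rfl
    simp only [hL]
    rw [hR]
    rcases hp.eq_two_or_odd with h2 | h2
    · subst h2
      have hd : d = m' := by omega
      subst hd
      rw [sum_range_succ, sum_range_one, zero_mul, add_zero, one_mul, he]
      rcases Nat.even_or_odd' n with ⟨c, hc | hc⟩
      · rw [ho (n + d) (by omega), hc, he]
        have e1 : ((2 * c + d : ℕ) : ZMod d) = ((2 * c : ℕ) : ZMod d) := by
          push_cast
          rw [ZMod.natCast_self, add_zero]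
        have e2 : ((h * (2 * c + d) : ℕ) : ZMod d) = (c : ZMod d) := by
          rw [Nat.cast_mul, e1, ← Nat.cast_mul, half_mul hodd]
        rw [e1, e2]
        have h5 : F' (c : ZMod d) + F' (c : ZMod d) = 0 := CharTwo.add_self_eq_zero _
        linear_combination h5
      · rw [ho n (by omega)]
        obtain ⟨c', hc'⟩ : ∃ c', n + d = 2 * c' := ⟨(n + d) / 2, by omega⟩
        rw [hc', he]
        have e1 : ((2 * c' : ℕ) : ZMod d) = (n : ZMod d) := by
          rw [← hc']
          push_cast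
          rw [ZMod.natCast_self, add_zero]
        have e2 : ((h * n : ℕ) : ZMod d) = (c' : ZMod d) := by
          rw [Nat.cast_mul, ← e1, ← Nat.cast_mul, half_mul hodd]
        rw [e2]
        have h5 : F' (c' : ZMod d) + F' (c' : ZMod d) = 0 := CharTwo.add_self_eq_zero _
        linear_combination h5
    · -- `p` odd
      obtain ⟨d', hd'⟩ : ∃ d', d = 2 * d' := by
        have h3 : 2 ∣ p * d := by rw [hpd]; exact dvd_mul_right 2 m'
        rcases (Nat.Prime.dvd_mul Nat.prime_two).mp h3 with h4 | ⟨d', h4⟩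
        · omega
        · exact ⟨d', h4⟩
      have hpd' : p * d' = m' := by
        rw [hd'] at hpd
        have : 2 * (p * d') = 2 * m' := by rw [← hpd]; ring
        omega
      have hcast : ∀ x i : ℕ, ((x + i * d' : ℕ) : ZMod m') =
          (x : ZMod m') + (i : ZMod m') * (d' : ZMod m') := by
        intro x i; push_cast; rfl
      have key : ∀ x : ℕ, ∑ i ∈ range p, F' ((x + i * d' : ℕ) : ZMod m') = F' ((p * x : ℕ) : ZMod m') := by
        intro x
        simp only [hcast]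
        rw [hF.dist p d' hp hpd']
        push_cast; rfl
      rcases Nat.even_or_odd' n with ⟨c, hc | hc⟩
      · have e1 : ∀ i, n + i * d = 2 * (c + i * d') := fun i => by rw [hc, hd']; ring
        have e2 : p * n = 2 * (p * c) := by rw [hc]; ring
        simp only [e1, he]
        rw [e2, he, key]
      · have hno : ∀ i, ¬ 2 ∣ n + i * d := by
          intro i
          rw [hc, hd']
          have : i * (2 * d') = 2 * (i * d') := by ring
          rw [this]; omega
        have hpno : ¬ 2 ∣ p * n := by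
          intro h3
          rcases (Nat.Prime.dvd_mul Nat.prime_two).mp h3 with h4 | h4 <;> omega
        rw [ho _ hpno]
        simp only [ho _ (hno _)]
        rw [sum_add_distrib]
        congr 1
        · -- the multiplication by two permutes the residues
          have hcop : p.Coprime 2 := by
            rw [Nat.coprime_comm, Nat.coprime_two_left]; exact Nat.odd_iff.mpr h2
          have h5 := Pool.Agent.N433.TB.perm hp.pos hcop
            (fun i => F' ((n + i * d' : ℕ) : ZMod m')) (fun i => by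
              beta_reduce
              congr 1
              rw [hcast, hcast]
              congr 1
              have h6 : ((i % p * d' : ℕ) : ZMod m') = ((i * d' : ℕ) : ZMod m') := by
                rw [ZMod.natCast_eq_natCast_iff]
                have h7 : i % p * d' ≡ i * d' [MOD p * d'] := Nat.ModEq.mul_right' d' (Nat.mod_modEq i p)
                rwa [hpd'] at h7
              push_cast at h6
              exact h6)
          rw [← key n, ← h5]
          refine sum_congr rfl fun i _ => ?_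
          beta_reduce
          rw [hd']
          congr 3
          ring
        · have e1 : ∀ i, ((h * (n + i * d) : ℕ) : ZMod m') = ((h * n + i * d' : ℕ) : ZMod m') := by
            intro i
            have e2 : h * (n + i * d) = h * n + h * (2 * (i * d')) := by rw [hd']; ring
            rw [e2, Nat.cast_add, half_mul hodd, ← Nat.cast_add]
          simp only [e1]
          rw [key]
          congr 2
          ring
  · intro b
    change F (((2 * b.val : ℕ)) : ZMod (2 * m')) = F' b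
    rw [hFc, he, ZMod.natCast_zmod_val]
  · intro a
    obtain ⟨n, hn⟩ : ∃ n, n = a.val := ⟨_, rfl⟩
    have ha : a = (n : ZMod (2 * m')) := by rw [hn, ZMod.natCast_zmod_val]
    have hu : ∀ u : (ZMod (2 * m'))ˣ, F ((u : ZMod (2 * m')) * a) =
        dbl F' ((u : ZMod (2 * m')).val * n) := by
      intro u
      rw [← hFc, ha]
      push_cast
      rw [ZMod.natCast_zmod_val]
    have hpi : ∀ u : (ZMod (2 * m'))ˣ, ((ZMod.unitsMap (Dvd.intro_left 2 rfl : m' ∣ 2 * m') u :
        (ZMod m')ˣ) : ZMod m') = (((u : ZMod (2 * m')).val : ℕ) : ZMod m') := by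
      intro u
      rw [ZMod.unitsMap_val, ZMod.natCast_val]
    have huo : ∀ u : (ZMod (2 * m'))ˣ, ¬ 2 ∣ (u : ZMod (2 * m')).val := by
      intro u h3
      have h4 := ZMod.val_coe_unit_coprime u
      have h5 : 2 ∣ Nat.gcd (u : ZMod (2 * m')).val (2 * m') := Nat.dvd_gcd h3 (dvd_mul_right 2 m')
      rw [h4] at h5
      omega
    by_cases h2 : 2 ∣ n
    · obtain ⟨c, hc⟩ := h2
      refine ⟨(c : ZMod m'), 0, fun u => ?_⟩
      rw [hu, hpi, mul_zero, h00, add_zero]
      have e1 : (u : ZMod (2 * m')).val * n = 2 * ((u : ZMod (2 * m')).val * c) := by rw [hc]; ring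
      rw [e1, he]
      push_cast; rfl
    · refine ⟨(n : ZMod m'), ((h * n : ℕ) : ZMod m'), fun u => ?_⟩
      rw [hu, hpi, ho]
      · congr 2
        · push_cast; rfl
        · push_cast; ring
      · intro h3
        rcases (Nat.Prime.dvd_mul Nat.prime_two).mp h3 with h4 | h4
        · exact huo u h4
        · exact h2 h4

/-- Relations with few entries have even box parities at the double level. -/
theorem small_even_two {ι : Type} [Fintype ι] [LinearOrder ι] {n : ι → ℕ} [∀ i, NeZero (n i)]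
    {N : ℕ} [NeZero N] (hn : ∀ i, (n i).Prime ∧ n i % 2 = 1)
    (hco : Pairwise (fun i j => (n i).Coprime (n j)))
    (hN : ∏ i, n i = N) (E : (∀ i, ZMod (n i)) ≃+* ZMod N) {C : ℕ}
    (hC : ∀ T : Finset ι, T.card = 4 → 16 * C < ∏ i ∈ T, (n i - 1))
    {T : Finset ι} (h2 : Even T.card) (h4 : 4 ≤ T.card) {L : (cyc n).Pt → ℤ}
    (hL : Lam T (univ \ T) L) {k m' : ℕ} [NeZero m'] [NeZero (2 * m')] (hk : k * N = m')
    (hpr : ∀ p, p.Prime → p ∣ m' → p ∣ N) (hodd : m' % 2 = 1) :
    ∃ F : ZMod (2 * m') → ZMod 2, OddDist F ∧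
      (∀ b : ZMod N, F (iota (2 * k) b) = ((L (pt (E.symm b)) : ℤ) : ZMod 2)) ∧
      ∀ y : ZMod (2 * m') → ℤ, Rel y → 2 * ∑ a, |y a| ≤ C → ∑ a, y a • F a = 0 := by
  classical
  have hD := lam_isD hn hL
  have hty := lam_ty h2 hL
  have h0 : L (fun _ => none) = 0 := by
    by_contra h
    obtain ⟨i, hi⟩ := card_pos.mp (by omega : 0 < T.card)
    exact (hL.sp _ h).1 i hi rfl
  obtain ⟨f, hf⟩ : ∃ f : ZMod N → ZMod 2, f = fun b => ((L (pt (E.symm b)) : ℤ) : ZMod 2) :=
    ⟨_, rfl⟩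
  have hfD : OddDist f := by
    rw [hf]; exact Pool.Agent.N31.TB.oddDist_two hn hco hN E hD hty h0
  obtain ⟨F', hF', hFf', hFb'⟩ := Pool.Agent.N433.TB.pull_back N f hfD k m' hk hodd hpr
  obtain ⟨F, hF, hFf0, hFb0⟩ := pull_two hodd hF'
  have hkm : (2 * k) * N = 2 * m' := by rw [mul_assoc, hk]
  have hFf : ∀ b : ZMod N, F (iota (2 * k) b) = f b := by
    intro b
    rw [← iota_comp rfl, hFf0, hFf']
  refine ⟨F, hF, fun b => by rw [hFf, hf], ?_⟩
  intro y hy hyC
  have hred : Red (2 * m') N (2 * k) :=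
    Red.trans rfl (red_two hodd) (red_exists k m' N k rfl hk hpr (fun h => by omega))
  -- invariance
  have hinv : ∀ u : (ZMod (2 * m'))ˣ,
      ∑ a, y a • F ((u : ZMod (2 * m')) * a) = ∑ a, y a • F a := by
    intro u
    have hpair : OddDist (fun a : ZMod (2 * m') => (F a, F ((u : ZMod (2 * m')) * a))) :=
      Pool.Agent.N198.TP.oddDist_pair hF (oddDist_unit hF u)
    obtain ⟨x0, hx0, he⟩ := hred _ _ hpair y hy
    have he1 := congrArg Prod.fst he
    have he2 := congrArg Prod.snd he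
    rw [Prod.fst_sum, Prod.fst_sum] at he1
    rw [Prod.snd_sum, Prod.snd_sum] at he2
    simp only [Prod.smul_fst, hFf] at he1
    simp only [Prod.smul_snd, unit_iota hkm, hFf] at he2
    rw [he1, he2, hf]
    beta_reduce
    have h3 := Pool.Agent.N31.TB.galois_two hn hco hN E hD hty x0 hx0
      (ZMod.unitsMap (Dvd.intro_left (2 * k) hkm : N ∣ 2 * m') u)
    have h5 : ∀ g : ZMod N → ℤ, ∑ b, x0 b • ((g b : ℤ) : ZMod 2) =
        ((∑ b, x0 b * g b : ℤ) : ZMod 2) := by
      intro g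
      push_cast
      exact sum_congr rfl fun b _ => by rw [zsmul_eq_mul]
    rw [h5 (fun b => L (pt (E.symm (((ZMod.unitsMap (Dvd.intro_left (2 * k) hkm : N ∣ 2 * m') u :
      (ZMod N)ˣ) : ZMod N) * b)))), h5 (fun b => L (pt (E.symm b))), ← sub_eq_zero]
    rw [← Int.cast_sub]
    exact (ZMod.intCast_zmod_eq_zero_iff_dvd _ 2).mpr h3
  -- counting
  choose b1 b2 hb12 using hFb0
  choose bb hbb using hFb'
  obtain ⟨e, he⟩ := exists_units E
  have hNU : (Fintype.card (ZMod N)ˣ : ℤ) = MM (cyc n) := by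
    unfold MM
    exact_mod_cast Fintype.card_congr e
  let Ψ : ZMod N → (ZMod N)ˣ → ℤ := fun b v => if f ((v : ZMod N) * b) = 0 then 0 else 1
  have hΨ : ∀ b, (C : ℤ) * ∑ v, Ψ b v < MM (cyc n) := by
    intro b
    refine lt_of_le_of_lt ?_ (count_lt hn hco hC h4 hL (pt (E.symm b)))
    refine mul_le_mul_of_nonneg_left ?_ (by positivity)
    rw [← Equiv.sum_comp e (fun v => |L ((cyc n).act v (pt (E.symm b)))|)]
    refine sum_le_sum fun v _ => ?_
    rw [← he]
    change (if f ((v : ZMod N) * b) = 0 then (0 : ℤ) else 1) ≤ _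
    split_ifs with h
    · exact abs_nonneg _
    · rw [hf] at h
      beta_reduce at h
      have h1 : L (pt (E.symm ((v : ZMod N) * b))) ≠ 0 := by
        intro h2
        apply h
        rw [h2, Int.cast_zero]
      exact Int.one_le_abs h1
  have hΨ0 : ∀ b v, 0 ≤ Ψ b v := by
    intro b v
    change 0 ≤ (if f ((v : ZMod N) * b) = 0 then (0 : ℤ) else 1)
    split_ifs <;> norm_num
  have hunit : ∀ u : (ZMod (2 * m'))ˣ, ZMod.unitsMap (Dvd.intro_left k hk : N ∣ m')
      (ZMod.unitsMap (Dvd.intro_left 2 rfl : m' ∣ 2 * m') u) =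
      ZMod.unitsMap (Dvd.intro_left (2 * k) hkm : N ∣ 2 * m') u := by
    intro u
    have h1 := ZMod.unitsMap_comp (Dvd.intro_left k hk : N ∣ m')
      (Dvd.intro_left 2 rfl : m' ∣ 2 * m')
    exact DFunLike.congr_fun h1 u
  refine count_zero (N := N) (Dvd.intro_left (2 * k) hkm : N ∣ 2 * m') (w := 2) (C := C)
    (by norm_num) F y (fun a v => Ψ (bb (b1 a)) v + Ψ (bb (b2 a)) v) hinv
    (fun a v => add_nonneg (hΨ0 _ _) (hΨ0 _ _)) ?_ ?_ (by exact_mod_cast hyC)
  · intro a u hne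
    rw [hb12, hbb, hbb, hunit] at hne
    beta_reduce
    have h6 : ∀ (b : ZMod N) (v : (ZMod N)ˣ), f ((v : ZMod N) * b) ≠ 0 → Ψ b v = 1 :=
      fun b v h => if_neg h
    by_cases h7 : f (((ZMod.unitsMap (Dvd.intro_left (2 * k) hkm : N ∣ 2 * m') u : (ZMod N)ˣ) :
        ZMod N) * bb (b1 a)) = 0
    · rw [h7, zero_add] at hne
      rw [h6 _ _ hne]
      have := hΨ0 (bb (b1 a)) (ZMod.unitsMap (Dvd.intro_left (2 * k) hkm : N ∣ 2 * m') u)
      omega
    · rw [h6 _ _ h7]
      have := hΨ0 (bb (b2 a)) (ZMod.unitsMap (Dvd.intro_left (2 * k) hkm : N ∣ 2 * m') u)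
      omega
  · intro a
    rw [sum_add_distrib, mul_add, hNU]
    have h8 := hΨ (bb (b1 a))
    have h9 := hΨ (bb (b2 a))
    push_cast
    omega

end Pool.Agent.N198.TB
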